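import Mathlib

-- merged part: Pool.Agent.Work.MP_3587fb_co.Frob
section
/-! Indexed factorizations of a finite abelian group: Frobenius congruence, Tijdeman dilation,
and the majority lemma. -/

namespace Pool.Agent.Work.MP_3587fb_co

open Finset

section Fam
variable {G : Type} [AddCommGroup G] [Fintype G] [DecidableEq G] {ι κ : Type}

/-- number of representations `z = f i + g k` -/
def rep (s : Finset ι) (t : Finset κ) (f : ι → G) (g : κ → G) (z : G) : ℕ :=
  ((s ×ˢ t).filter (fun x => f x.1 + g x.2 = z)).card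

/-- every element has exactly one representation -/
def Fam (s : Finset ι) (t : Finset κ) (f : ι → G) (g : κ → G) : Prop :=
  ∀ z, rep s t f g z = 1

omit [Fintype G] in
lemma rep_symm (s : Finset ι) (t : Finset κ) (f : ι → G) (g : κ → G) (z : G) :
    rep t s g f z = rep s t f g z := by
  unfold rep
  refine Finset.card_bij (fun x _ => x.swap) ?_ ?_ ?_
  · intro x hx
    simp only [mem_filter, mem_product] at hx ⊢
    exact ⟨⟨hx.1.2, hx.1.1⟩, by rw [← hx.2]; simp [add_comm]⟩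
  · intro a _ b _ h
    exact Prod.swap_injective h
  · intro x hx
    refine ⟨x.swap, ?_, by simp⟩
    simp only [mem_filter, mem_product] at hx ⊢
    exact ⟨⟨hx.1.2, hx.1.1⟩, by rw [← hx.2]; simp [add_comm]⟩

omit [Fintype G] in
lemma Fam.symm {s : Finset ι} {t : Finset κ} {f : ι → G} {g : κ → G} (h : Fam s t f g) :
    Fam t s g f := fun z => by rw [rep_symm]; exact h z

lemma sum_rep (s : Finset ι) (t : Finset κ) (f : ι → G) (g : κ → G) :
    ∑ z, rep s t f g z = s.card * t.card := by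
  unfold rep
  rw [← card_product]
  exact (card_eq_sum_card_fiberwise (f := fun x : ι × κ => f x.1 + g x.2)
    (fun _ _ => mem_coe.2 (mem_univ _))).symm

lemma Fam.card {s : Finset ι} {t : Finset κ} {f : ι → G} {g : κ → G} (h : Fam s t f g) :
    s.card * t.card = Fintype.card G := by
  rw [← sum_rep s t f g]; simp [h _]

/-- the group ring element of a family -/
noncomputable def el (R : Type) [Semiring R] (s : Finset ι) (f : ι → G) :
    AddMonoidAlgebra R G := ∑ i ∈ s, AddMonoidAlgebra.single (f i) 1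

omit [Fintype G] in
lemma coeff_el_mul (R : Type) [Semiring R] (s : Finset ι) (t : Finset κ) (f : ι → G) (g : κ → G)
    (z : G) : (el R s f * el R t g).coeff z = (rep s t f g z : R) := by
  unfold el rep
  rw [Finset.sum_mul_sum, ← Finset.sum_product', AddMonoidAlgebra.coeff_sum, Finset.card_filter]
  simp [AddMonoidAlgebra.single_mul_single, Finsupp.single_apply]

lemma J_mul_single (R : Type) [Semiring R] (a : G) :
    el R (univ : Finset G) id * AddMonoidAlgebra.single a 1 = el R (univ : Finset G) id := by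
  unfold el
  rw [Finset.sum_mul]
  simp only [AddMonoidAlgebra.single_mul_single, id, mul_one]
  exact Fintype.sum_equiv (Equiv.addRight a) _ _ (fun _ => rfl)

lemma J_mul_el (R : Type) [CommSemiring R] (t : Finset κ) (g : κ → G) :
    el R (univ : Finset G) id * el R t g = (t.card : R) • el R (univ : Finset G) id := by
  conv_lhs => rw [el.eq_def R t g, Finset.mul_sum]
  simp only [J_mul_single]
  rw [Finset.sum_const, Nat.cast_smul_eq_nsmul]

lemma coeff_J (R : Type) [Semiring R] (z : G) : (el R (univ : Finset G) id).coeff z = 1 := by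
  unfold el
  rw [AddMonoidAlgebra.coeff_sum]
  simp [Finsupp.single_apply]

lemma Fam.mul_eq {s : Finset ι} {t : Finset κ} {f : ι → G} {g : κ → G} (h : Fam s t f g)
    (R : Type) [Semiring R] : el R s f * el R t g = el R (univ : Finset G) id := by
  ext z
  rw [coeff_el_mul, coeff_J, h z, Nat.cast_one]

lemma J_mul_pow (R : Type) [CommSemiring R] (t : Finset κ) (g : κ → G) (k : ℕ) :
    el R (univ : Finset G) id * el R t g ^ k = (t.card : R) ^ k • el R (univ : Finset G) id := by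
  induction k with
  | zero => simp
  | succ k ih =>
    rw [pow_succ, ← mul_assoc, ih, smul_mul_assoc, J_mul_el, smul_smul, pow_succ]

/-- Frobenius congruence -/
lemma Fam.frob {s : Finset ι} {t : Finset κ} {f : ι → G} {g : κ → G} (h : Fam s t f g)
    (p : ℕ) (hp : p.Prime) (z : G) :
    (rep s t f (fun k => p • g k) z : ZMod p) = (t.card : ZMod p) ^ (p - 1) := by
  haveI := Fact.mk hp
  haveI : CharP (AddMonoidAlgebra (ZMod p) G) p :=
    charP_of_injective_algebraMap (R := ZMod p) (by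
      intro a b hab
      simpa [AddMonoidAlgebra.coe_algebraMap] using hab) p
  have h1 : el (ZMod p) t g ^ p = el (ZMod p) t (fun k => p • g k) := by
    unfold el
    rw [sum_pow_char]
    simp [AddMonoidAlgebra.single_pow]
  rw [← coeff_el_mul, ← h1]
  have h2 : el (ZMod p) t g ^ p = el (ZMod p) t g * el (ZMod p) t g ^ (p - 1) := by
    rw [← pow_succ', Nat.sub_add_cancel hp.one_le]
  rw [h2, ← mul_assoc, h.mul_eq, J_mul_pow, AddMonoidAlgebra.coeff_smul_apply, coeff_J]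
  simp

lemma Fam.tij_prime {s : Finset ι} {t : Finset κ} {f : ι → G} {g : κ → G} (h : Fam s t f g)
    (p : ℕ) (hp : p.Prime) (hd : ¬ p ∣ t.card) : Fam s t f (fun k => p • g k) := by
  haveI := Fact.mk hp
  have hpos : ∀ z, 1 ≤ rep s t f (fun k => p • g k) z := by
    intro z
    have := h.frob p hp z
    by_contra hc
    have h0 : rep s t f (fun k => p • g k) z = 0 := by omega
    rw [h0, Nat.cast_zero] at this
    have h3 : (t.card : ZMod p) ≠ 0 := by
      rwa [Ne, ZMod.natCast_eq_zero_iff]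
    exact pow_ne_zero _ h3 this.symm
  have hsum : ∑ z : G, 1 = ∑ z, rep s t f (fun k => p • g k) z := by
    rw [sum_rep, h.card]; simp
  intro z
  exact ((Finset.sum_eq_sum_iff_of_le (fun z _ => hpos z)).1 hsum z (mem_univ _)).symm

lemma Fam.tij {s : Finset ι} {t : Finset κ} {f : ι → G} (k : ℕ) (hk : k ≠ 0) :
    ∀ {g : κ → G}, Fam s t f g → Nat.Coprime k t.card → Fam s t f (fun x => k • g x) := by
  induction k using Nat.recOnMul with
  | zero => exact absurd rfl hk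
  | one => intro g h _; simpa using h
  | prime p hp =>
    intro g h hc
    exact h.tij_prime p hp ((Nat.Prime.coprime_iff_not_dvd hp).1 hc)
  | mul a b iha ihb =>
    intro g h hc
    have ha : a ≠ 0 := left_ne_zero_of_mul hk
    have hb : b ≠ 0 := right_ne_zero_of_mul hk
    have h1 := ihb hb h (Nat.Coprime.coprime_mul_left hc)
    have h2 := iha ha h1 (Nat.Coprime.coprime_mul_right hc)
    simpa [mul_smul] using h2

omit [Fintype G] in
lemma Fam.unique {s : Finset ι} {t : Finset κ} {f : ι → G} {g : κ → G} (h : Fam s t f g)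
    {i i' : ι} {k k' : κ} (hi : i ∈ s) (hi' : i' ∈ s) (hk : k ∈ t) (hk' : k' ∈ t)
    (e : f i + g k = f i' + g k') : i = i' ∧ k = k' := by
  have h1 := h (f i' + g k')
  unfold rep at h1
  have := Finset.card_le_one.1 h1.le (i, k) (by simp [hi, hk, e]) (i', k') (by simp [hi', hk'])
  exact Prod.mk.inj this

/-- majority lemma -/
lemma majority {F : Type} [AddCommGroup F] (s s0 : Finset ι) [DecidableEq ι] (hs : s0 ⊆ s)
    (hmaj : s.card < 2 * s0.card) (f : ι → G) (P : G → F)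
    (hP : ∀ z, ∑ i ∈ s, P (z - f i) = 0) (w0 : G) (hw0 : P w0 ≠ 0) :
    ∃ i ∈ s0, ∃ i' ∈ s0, i ≠ i' ∧ ∃ w w', P w ≠ 0 ∧ P w' ≠ 0 ∧ f i + w = f i' + w' := by
  classical
  by_contra hcon
  push Not at hcon
  set W := (univ : Finset G).filter (fun w => P w ≠ 0) with hW
  have hWpos : 0 < W.card := card_pos.2 ⟨w0, by simp [hW, hw0]⟩
  have hinj : Set.InjOn (fun x : ι × G => f x.1 + x.2) (s0 ×ˢ W : Finset (ι × G)) := by
    rintro ⟨i, w⟩ hx ⟨i', w'⟩ hx' e
    simp only [coe_product, Set.mem_prod, mem_coe, hW, mem_filter, mem_univ, true_and] at hx hx'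
    simp only at e
    by_cases hii : i = i'
    · subst hii
      rw [add_left_cancel e]
    · exact absurd e (hcon i hx.1 i' hx'.1 hii w w' hx.2 hx'.2)
  have hsub : (s0 ×ˢ W).image (fun x : ι × G => f x.1 + x.2) ⊆
      ((s \ s0) ×ˢ W).image (fun x : ι × G => f x.1 + x.2) := by
    intro z hz
    obtain ⟨⟨i, w⟩, hx, rfl⟩ := mem_image.1 hz
    simp only [mem_product, hW, mem_filter, mem_univ, true_and] at hx
    by_contra hz'
    have h0 := hP (f i + w)
    rw [Finset.sum_eq_single i] at h0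
    · exact hx.2 (by simpa using h0)
    · intro j hj hji
      by_contra hne
      by_cases hj0 : j ∈ s0
      · exact hcon j hj0 i hx.1 hji _ w hne hx.2 (by simp)
      · apply hz'
        refine mem_image.2 ⟨(j, f i + w - f j), ?_, by simp⟩
        simp only [mem_product, mem_sdiff, hW, mem_filter, mem_univ, true_and]
        exact ⟨⟨hj, hj0⟩, hne⟩
    · intro hi
      exact absurd (hs hx.1) hi
  have h1 := card_le_card hsub
  rw [card_image_of_injOn hinj, card_product] at h1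
  have h2 := (card_image_le (s := (s \ s0) ×ˢ W) (f := fun x : ι × G => f x.1 + x.2))
  rw [card_product, card_sdiff_of_subset hs] at h2
  have h3 := Nat.le_of_mul_le_mul_right (h1.trans h2) hWpos
  have h4 := card_le_card hs
  omega

end Fam

end Pool.Agent.Work.MP_3587fb_co
end

-- merged part: Pool.Agent.Work.MP_3587fb_co.Equi
section
/-! Equidistribution of one factor modulo prime powers, and two density lemmas. -/

namespace Pool.Agent.Work.MP_3587fb_co

open Finset Polynomial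

/-- number of elements of `S` congruent to `c` modulo `q` -/
def cnt (S : Finset ℤ) (q : ℕ) (c : ℤ) : ℕ := (S.filter (fun y => (q : ℤ) ∣ y - c)).card

lemma cnt_split (S : Finset ℤ) (q p : ℕ) (hq : q ≠ 0) (hp : p ≠ 0) (c : ℤ) :
    cnt S q c = ∑ i ∈ range p, cnt S (q * p) (c + i * q) := by
  unfold cnt
  have hp' : (0 : ℤ) < p := by exact_mod_cast Nat.pos_of_ne_zero hp
  have hq' : (q : ℤ) ≠ 0 := by exact_mod_cast hq
  rw [card_eq_sum_card_fiberwise (f := fun y : ℤ => ((y - c) / q % p).toNat) (t := range p)]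
  · refine sum_congr rfl (fun i hi => ?_)
    rw [filter_filter]
    congr 1
    refine filter_congr (fun y _ => ?_)
    have hi' : (i : ℤ) < p := by exact_mod_cast mem_range.1 hi
    constructor
    · rintro ⟨⟨t, ht⟩, h2⟩
      rw [ht, Int.mul_ediv_cancel_left _ hq'] at h2
      have h3 : t % p = i := by
        have := Int.emod_nonneg t hp'.ne'
        omega
      refine ⟨t / p, ?_⟩
      have h4 := Int.emod_add_mul_ediv t p
      push_cast
      have : y - (c + i * q) = q * (t - i) := by linear_combination ht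
      rw [this, ← h3]
      have : t - t % p = p * (t / p) := by linear_combination -h4
      rw [this]; ring
    · rintro ⟨t, ht⟩
      push_cast at ht
      have h1 : y - c = q * (i + p * t) := by linear_combination ht
      refine ⟨⟨_, h1⟩, ?_⟩
      rw [h1, Int.mul_ediv_cancel_left _ hq', Int.add_mul_emod_self_left,
        Int.emod_eq_of_lt (by positivity) hi']
      simp
  · intro y _
    simp only [coe_range, Set.mem_Iio]
    have h1 := Int.emod_nonneg ((y - c) / q) hp'.ne'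
    have h2 := Int.emod_lt_of_pos ((y - c) / q) hp'
    omega

/-- counts modulo `p^(j+1)` are invariant under the shift by `p^j` -/
def Per (S : Finset ℤ) (p j : ℕ) : Prop :=
  ∀ c : ℤ, cnt S (p ^ (j + 1)) (c + (p ^ j : ℕ)) = cnt S (p ^ (j + 1)) c

lemma Per.mul {S : Finset ℤ} {p j : ℕ} (h : Per S p j) (hp : p ≠ 0) (c : ℤ) :
    cnt S (p ^ j) c = p * cnt S (p ^ (j + 1)) c := by
  rw [cnt_split S (p ^ j) p (pow_ne_zero _ hp) hp c, ← pow_succ]
  have : ∀ i : ℕ, cnt S (p ^ (j + 1)) (c + i * (p ^ j : ℕ)) = cnt S (p ^ (j + 1)) c := by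
    intro i
    induction i with
    | zero => simp
    | succ i ih =>
      rw [← ih, ← h (c + i * (p ^ j : ℕ))]
      congr 1; push_cast; ring
  simp only [this, sum_const, card_range, smul_eq_mul]

lemma per_of_root (S : Finset ℤ) (w p j : ℕ) [NeZero w] (hp : p.Prime) (hd : p ^ (j + 1) ∣ w)
    (ζ : ℂ) (hζ : IsPrimitiveRoot ζ (p ^ (j + 1)))
    (h0 : ∑ a ∈ S, ζ ^ (a : ZMod w).val = 0) : Per S p j := by
  have := Fact.mk hp
  have hq0 : p ^ (j + 1) ≠ 0 := pow_ne_zero _ hp.ne_zero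
  have : NeZero (p ^ (j + 1)) := ⟨hq0⟩
  set P : ℤ[X] := ∑ a ∈ S, X ^ (a : ZMod w).val with hP
  have hdv : cyclotomic (p ^ (j + 1)) ℤ ∣ P := by
    rw [cyclotomic_eq_minpoly hζ (Nat.pos_of_ne_zero hq0)]
    apply minpoly.isIntegrallyClosed_dvd (hζ.isIntegral (Nat.pos_of_ne_zero hq0))
    simp [hP, h0]
  obtain ⟨C, hC⟩ := hdv
  have h1 : P * (X ^ p ^ j - 1) = C * (X ^ p ^ (j + 1) - 1) := by
    rw [hC, ← cyclotomic_prime_pow_mul_X_pow_sub_one ℤ p j]; ring
  set G := ZMod (p ^ (j + 1))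
  have h2 := congrArg (aeval (AddMonoidAlgebra.single (1 : G) (1 : ℤ))) h1
  have h3 : ((p ^ (j + 1) : ℕ) : G) = 0 := ZMod.natCast_self _
  simp only [hP, map_mul, map_sub, map_sum, map_pow, aeval_X, map_one,
    AddMonoidAlgebra.single_pow, one_pow, nsmul_eq_mul, mul_one, h3] at h2
  rw [← AddMonoidAlgebra.one_def, sub_self, mul_zero, mul_sub, mul_one, sub_eq_zero,
    Finset.sum_mul] at h2
  simp only [AddMonoidAlgebra.single_mul_single, mul_one] at h2
  intro c
  have h4 := congrArg (fun x : AddMonoidAlgebra ℤ G => x.coeff ((c : G) + ((p ^ j : ℕ) : G))) h2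
  simp only [AddMonoidAlgebra.coeff_sum, AddMonoidAlgebra.coeff_single, Finsupp.coe_finsetSum,
    Finset.sum_apply, Finsupp.single_apply, add_left_inj, Finset.sum_boole, Nat.cast_inj] at h4
  have h5 : ∀ a : ℤ, (((a : ZMod w).val : ℕ) : G) = (a : G) := by
    intro a
    rw [ZMod.natCast_val, ZMod.cast_intCast hd]
  simp only [h5] at h4
  unfold cnt
  have e1 : ∀ c' : ℤ, S.filter (fun y => ((p ^ (j + 1) : ℕ) : ℤ) ∣ y - c') =
      S.filter (fun y : ℤ => (y : G) = (c' : G)) := by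
    intro c'
    refine filter_congr (fun y _ => ?_)
    rw [eq_comm, ZMod.intCast_eq_intCast_iff_dvd_sub]
  rw [e1, e1]
  push_cast at h4 ⊢
  exact h4.symm

lemma Fam.per {w : ℕ} [NeZero w] {S T : Finset ℤ}
    (h : Fam S T (fun a : ℤ => (a : ZMod w)) (fun a : ℤ => (a : ZMod w)))
    (p j : ℕ) (hp : p.Prime) (hd : p ^ (j + 1) ∣ w) : Per S p j ∨ Per T p j := by
  have hq0 : p ^ (j + 1) ≠ 0 := pow_ne_zero _ hp.ne_zero
  have hζ := Complex.isPrimitiveRoot_exp _ hq0
  set ζ := Complex.exp (2 * Real.pi * Complex.I / ((p ^ (j + 1) : ℕ) : ℂ))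
  have hw : ζ ^ w = 1 := by
    obtain ⟨k, rfl⟩ := hd
    rw [pow_mul, hζ.pow_eq_one, one_pow]
  set χ := AddChar.zmodChar w hw
  have hne : χ ≠ 1 := by
    intro h1
    have h2 : χ ((1 : ℕ) : ZMod w) = ζ ^ 1 := AddChar.zmodChar_apply' hw 1
    rw [h1, AddChar.one_apply, pow_one] at h2
    exact hζ.ne_one (Nat.one_lt_pow (by omega) hp.one_lt) h2.symm
  have hsum : ∑ z, χ z = 0 := AddChar.sum_eq_zero_of_ne_one hne
  have hprod : (∑ a ∈ S, χ (a : ZMod w)) * (∑ a ∈ T, χ (a : ZMod w)) = 0 := by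
    rw [Finset.sum_mul_sum, ← Finset.sum_product', ← hsum]
    rw [← Finset.sum_fiberwise (s := S ×ˢ T) (g := fun x : ℤ × ℤ => (x.1 : ZMod w) + (x.2 : ZMod w))]
    refine sum_congr rfl (fun z _ => ?_)
    rw [Finset.sum_congr rfl (g := fun _ => χ z)]
    · have := h z
      unfold rep at this
      rw [sum_const, this, one_smul]
    · intro x hx
      rw [← (mem_filter.1 hx).2, AddChar.map_add_eq_mul]
  rcases mul_eq_zero.1 hprod with h1 | h1
  · exact Or.inl (per_of_root S w p j hp hd ζ hζ h1)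
  · exact Or.inr (per_of_root T w p j hp hd ζ hζ h1)

lemma cnt_mono (S : Finset ℤ) {q q' : ℕ} (h : q ∣ q') (c : ℤ) : cnt S q' c ≤ cnt S q c := by
  unfold cnt
  refine card_le_card (fun y hy => ?_)
  rw [mem_filter] at hy ⊢
  exact ⟨hy.1, (Int.natCast_dvd_natCast.2 h).trans hy.2⟩

lemma Fam.class_bound {w : ℕ} [NeZero w] {S T : Finset ℤ}
    (h : Fam S T (fun a : ℤ => (a : ZMod w)) (fun a : ℤ => (a : ZMod w)))
    (p k : ℕ) (hp : p.Prime) (hd : p ^ k ∣ w) (hn : ¬ p ^ k ∣ S.card) (c : ℤ) :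
    p * cnt T (p ^ k) c ≤ T.card := by
  by_cases hall : ∀ j < k, Per S p j
  · exfalso
    apply hn
    have : ∀ j ≤ k, S.card = p ^ j * cnt S (p ^ j) 0 := by
      intro j hj
      induction j with
      | zero => simp [cnt]
      | succ j ih =>
        rw [ih (by omega), (hall j (by omega)).mul hp.ne_zero, pow_succ p j, mul_assoc]
    exact ⟨_, this k le_rfl⟩
  · push Not at hall
    obtain ⟨j, hj, hS⟩ := hall
    have hT := (h.per p j hp ((pow_dvd_pow p hj).trans hd)).resolve_left hS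
    calc p * cnt T (p ^ k) c ≤ p * cnt T (p ^ (j + 1)) c :=
          Nat.mul_le_mul_left _ (cnt_mono T (pow_dvd_pow p hj) c)
      _ = cnt T (p ^ j) c := (hT.mul hp.ne_zero c).symm
      _ ≤ T.card := card_filter_le _ _

/-- the part of `A` in the initial interval -/
def ini (n : ℕ) (A : Finset ℤ) : Finset ℤ := A.filter (fun a => 0 ≤ a ∧ a < n)

lemma half_of_inj (n : ℕ) (A : Finset ℤ) (φ : ℤ → ℤ) (h1 : ∀ a ∈ ini n A, 0 ≤ φ a ∧ φ a < n)
    (h2 : ∀ a ∈ ini n A, φ a ∉ A) (h3 : Set.InjOn φ (ini n A)) : 2 * (ini n A).card ≤ n := by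
  have hsub : ini n A ⊆ Ico (0 : ℤ) n := fun a ha => by
    simp only [ini, mem_filter] at ha; simpa using ha.2
  have := card_le_card_of_injOn (s := ini n A) (t := Ico (0 : ℤ) n \ ini n A) φ (fun a ha => by
    simp only [coe_sdiff, coe_Ico, Set.mem_sdiff, Set.mem_Ico, mem_coe]
    exact ⟨h1 a ha, fun h => h2 a ha (mem_filter.1 h).1⟩) h3
  rw [card_sdiff_of_subset hsub] at this
  have h4 := card_le_card hsub
  simp only [Int.card_Ico, sub_zero, Int.toNat_natCast] at this h4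
  omega

lemma half_odd (n d : ℕ) (A : Finset ℤ) (hd : 2 * d ≤ n) (h1 : ∀ a ∈ A, a + d ∉ A)
    (h2 : ∀ a ∈ A, a + 2 * d ∉ A) : 2 * (ini n A).card ≤ n := by
  refine half_of_inj n A (fun a => if a + d < n then a + d else a - d) ?_ ?_ ?_
  · intro a ha
    simp only [ini, mem_filter] at ha
    split_ifs <;> omega
  · intro a ha
    simp only [ini, mem_filter] at ha
    split_ifs
    · exact h1 a ha.1
    · intro h; exact h1 _ h (by simpa using ha.1)
  · intro a ha b hb e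
    simp only [ini, coe_filter, Set.mem_ofPred_eq] at ha hb
    simp only at e
    split_ifs at e
    · omega
    · exact absurd (show a + 2 * d ∈ A by rw [show a + 2 * d = b by omega]; exact hb.1) (h2 a ha.1)
    · exact absurd (show b + 2 * d ∈ A by rw [show b + 2 * d = a by omega]; exact ha.1) (h2 b hb.1)
    · omega

lemma half_even (n d : ℕ) (A : Finset ℤ) (hd0 : 0 < d) (hd : 2 * d ∣ n)
    (h1 : ∀ a ∈ A, a + d ∉ A) : 2 * (ini n A).card ≤ n := by
  obtain ⟨k, hk⟩ := hd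
  have hD : (0 : ℤ) < 2 * d := by omega
  have key : ∀ a : ℤ, ∃ t r : ℤ, a = 2 * d * t + r ∧ 0 ≤ r ∧ r < 2 * d ∧ a % (2 * d) = r :=
    fun a => ⟨a / (2 * d), a % (2 * d), (Int.mul_ediv_add_emod a _).symm,
      Int.emod_nonneg _ hD.ne', Int.emod_lt_of_pos _ hD, rfl⟩
  refine half_of_inj n A (fun a => if a % (2 * d) < d then a + d else a - d) ?_ ?_ ?_
  · intro a ha
    simp only [ini, mem_filter] at ha
    obtain ⟨t, r, e, r0, r1, hr⟩ := key a
    have hn : (n : ℤ) = 2 * d * k := by exact_mod_cast hk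
    have t0 : 0 ≤ t := by
      by_contra hc
      have : 2 * (d : ℤ) * t ≤ 2 * d * (-1) := mul_le_mul_of_nonneg_left (by omega) hD.le
      omega
    have t1 : t + 1 ≤ k := by
      by_contra hc
      have : 2 * (d : ℤ) * k ≤ 2 * d * t := mul_le_mul_of_nonneg_left (by omega) hD.le
      omega
    have h5 : 2 * (d : ℤ) * (t + 1) ≤ 2 * d * k := mul_le_mul_of_nonneg_left t1 hD.le
    have h6 : 0 ≤ 2 * (d : ℤ) * t := mul_nonneg hD.le t0
    rw [mul_add, mul_one] at h5
    rw [hr]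
    split_ifs <;> omega
  · intro a ha
    simp only [ini, mem_filter] at ha
    split_ifs
    · exact h1 a ha.1
    · intro h; exact h1 _ h (by simpa using ha.1)
  · intro a _ b _ e
    simp only at e
    split_ifs at e with h3 h4 h4
    · omega
    · have : b = a + 2 * d := by omega
      rw [this, Int.add_emod_right] at h4
      exact absurd h3 h4
    · have : a = b + 2 * d := by omega
      rw [this, Int.add_emod_right] at h3
      exact absurd h4 h3
    · omega

end Pool.Agent.Work.MP_3587fb_co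
end

-- merged part: Pool.Agent.Work.MP_3587fb_co.Til
section
/-! Periodic tilings of the integers and the reduction steps. -/

namespace Pool.Agent.Work.MP_3587fb_co

open Finset

/-- `A + B = ℤ` with unique sums, `B` periodic modulo `w` -/
structure Tl (w : ℕ) (A : Finset ℤ) (B : Set ℤ) : Prop where
  pos : 0 < w
  per : ∀ y : ℤ, y + w ∈ B ↔ y ∈ B
  til : ∀ z, ∃! a, a ∈ A ∧ z - a ∈ B

open Classical in
/-- representatives of `B` in one period -/
noncomputable def bar (w : ℕ) (B : Set ℤ) : Finset ℤ := (Ico (0 : ℤ) w).filter (fun y => y ∈ B)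

lemma mem_bar {w : ℕ} {B : Set ℤ} {y : ℤ} : y ∈ bar w B ↔ (0 ≤ y ∧ y < w) ∧ y ∈ B := by
  simp [bar]

lemma per_mul {w : ℕ} {B : Set ℤ} (h : ∀ y : ℤ, y + w ∈ B ↔ y ∈ B) (k : ℤ) (y : ℤ) :
    y + k * w ∈ B ↔ y ∈ B := by
  induction k using Int.induction_on with
  | zero => simp
  | succ k ih => rw [← ih, ← h (y + k * w)]; ring_nf
  | pred k ih => rw [← ih, ← h (y + (-k - 1) * w)]; ring_nf

variable {w : ℕ} {A A' : Finset ℤ} {B : Set ℤ}

lemma Tl.congr (h : Tl w A B) {y y' : ℤ} (e : (w : ℤ) ∣ y - y') : y ∈ B ↔ y' ∈ B := by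
  obtain ⟨k, hk⟩ := e
  rw [← per_mul h.per k y']
  rw [show y' + k * w = y by linear_combination -hk]

lemma Tl.congr' (h : Tl w A B) {y y' : ℤ} (e : (y : ZMod w) = (y' : ZMod w)) :
    y ∈ B ↔ y' ∈ B :=
  h.congr ((ZMod.intCast_eq_intCast_iff_dvd_sub y' y w).1 e.symm)

lemma Tl.mod_mem (h : Tl w A B) {y : ℤ} (hy : y ∈ B) : y % w ∈ bar w B := by
  have hw : (0 : ℤ) < w := by exact_mod_cast h.pos
  rw [mem_bar]
  refine ⟨⟨Int.emod_nonneg _ hw.ne', Int.emod_lt_of_pos _ hw⟩, ?_⟩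
  exact (h.congr' (by simp)).2 hy

lemma bar_inj {y y' : ℤ} (hy : y ∈ bar w B) (hy' : y' ∈ bar w B)
    (e : (y : ZMod w) = (y' : ZMod w)) : y = y' := by
  rw [mem_bar] at hy hy'
  have := (ZMod.intCast_eq_intCast_iff y y' w).1 e
  rwa [Int.ModEq, Int.emod_eq_of_lt hy.1.1 hy.1.2, Int.emod_eq_of_lt hy'.1.1 hy'.1.2] at this

lemma Tl.fam (h : Tl w A B) :
    Fam A (bar w B) (fun a : ℤ => (a : ZMod w)) (fun a : ℤ => (a : ZMod w)) := by
  intro z
  obtain ⟨z, rfl⟩ := ZMod.intCast_surjective z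
  obtain ⟨a, ⟨ha, hb⟩, hu⟩ := h.til z
  unfold rep
  rw [card_eq_one]
  refine ⟨(a, (z - a) % w), ?_⟩
  ext ⟨a', b'⟩
  simp only [mem_filter, mem_product, mem_singleton, Prod.mk.injEq]
  constructor
  · rintro ⟨⟨ha', hb'⟩, e⟩
    have h1 : ((z - a' : ℤ) : ZMod w) = (b' : ZMod w) := by push_cast; rw [← e]; ring
    have h2 : a' = a := hu a' ⟨ha', (h.congr' h1).2 (mem_bar.1 hb').2⟩
    subst h2
    exact ⟨rfl, bar_inj hb' (h.mod_mem hb) (by simp [← h1])⟩
  · rintro ⟨rfl, rfl⟩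
    exact ⟨⟨ha, h.mod_mem hb⟩, by simp⟩

lemma Tl.card (h : Tl w A B) : A.card * (bar w B).card = w := by
  have : NeZero w := ⟨h.pos.ne'⟩
  rw [h.fam.card, ZMod.card]

lemma Tl.bar_pos (h : Tl w A B) : 0 < (bar w B).card :=
  Nat.pos_of_mul_pos_left (by rw [h.card]; exact h.pos)

lemma Tl.cpos (h : Tl w A B) : 0 < A.card :=
  Nat.pos_of_mul_pos_right (by rw [h.card]; exact h.pos)

lemma Tl.card_eq (h : Tl w A B) (h' : Tl w A' B) : A'.card = A.card :=
  Nat.eq_of_mul_eq_mul_right h.bar_pos (by rw [h.card, h'.card])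

/-- the easy half of the theorem of Sands -/
lemma Tl.sands (h : Tl w A B) {u : ZMod w} (hu : IsUnit u) {a a' b b' : ℤ} (ha : a ∈ A)
    (ha' : a' ∈ A) (hb : b ∈ B) (hb' : b' ∈ B)
    (e : (a : ZMod w) - a' = u * ((b : ZMod w) - b')) : a = a' := by
  have : NeZero w := ⟨h.pos.ne'⟩
  have hk : ((u.val + w : ℕ) : ZMod w) = u := by simp
  have hc : Nat.Coprime (u.val + w) w := by
    rw [← ZMod.isUnit_iff_coprime, hk]; exact hu
  have hf := Fam.tij (u.val + w) (by have := h.pos; omega) h.fam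
    (Nat.Coprime.coprime_dvd_right (Dvd.intro_left _ h.card) hc)
  refine (hf.unique ha ha' (h.mod_mem hb') (h.mod_mem hb) ?_).1
  simp only [nsmul_eq_mul, hk, ZMod.intCast_mod]
  linear_combination e

/-- dilation of `B` -/
lemma Tl.dilB (h : Tl w A B) (k : ℕ) (hk : k ≠ 0) (hc : Nat.Coprime k (bar w B).card) :
    Tl w A {y | ∃ b ∈ B, (w : ℤ) ∣ y - k * b} := by
  have : NeZero w := ⟨h.pos.ne'⟩
  have hf := Fam.tij k hk h.fam hc
  refine ⟨h.pos, ?_, ?_⟩
  · intro y
    simp only [Set.mem_ofPred_eq]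
    refine exists_congr (fun b => and_congr_right (fun _ => ?_))
    rw [show y + w - k * b = (y - k * b) + w by ring]
    exact dvd_add_self_right
  · intro z
    have h1 := hf (z : ZMod w)
    unfold rep at h1
    obtain ⟨⟨a, b⟩, hx⟩ := card_pos.1 (h1.symm ▸ Nat.one_pos)
    simp only [mem_filter, mem_product, nsmul_eq_mul] at hx
    refine ⟨a, ⟨hx.1.1, b, (mem_bar.1 hx.1.2).2, ?_⟩, ?_⟩
    · rw [← ZMod.intCast_eq_intCast_iff_dvd_sub]
      push_cast; rw [← hx.2]; ring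
    · rintro a' ⟨ha', b', hb', e⟩
      rw [← ZMod.intCast_eq_intCast_iff_dvd_sub] at e
      push_cast at e
      refine (hf.unique ha' hx.1.1 (h.mod_mem hb') hx.1.2 ?_).1
      simp only [nsmul_eq_mul, ZMod.intCast_mod]
      rw [hx.2, e]; ring

/-- removing a prime that does not divide `|A|` -/
lemma Tl.redA (h : Tl w A B) (p w' : ℕ) (hp : p.Prime) (hw : w = p * w') (hd : ¬ p ∣ A.card) :
    Tl w' A {y | p * y ∈ B} := by
  have : NeZero w := ⟨h.pos.ne'⟩
  have hf := h.fam.symm.tij_prime p hp hd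
  refine ⟨Nat.pos_of_mul_pos_left (hw ▸ h.pos), ?_, ?_⟩
  · intro y
    simp only [Set.mem_ofPred_eq]
    rw [← h.per (p * y), hw]; push_cast; ring_nf
  · intro z
    have h1 := hf ((p * z : ℤ) : ZMod w)
    unfold rep at h1
    obtain ⟨⟨b, a⟩, hx⟩ := card_pos.1 (h1.symm ▸ Nat.one_pos)
    simp only [mem_filter, mem_product, nsmul_eq_mul] at hx
    refine ⟨a, ⟨hx.1.2, ?_⟩, ?_⟩
    · refine (h.congr' ?_).2 (mem_bar.1 hx.1.1).2
      have := hx.2
      push_cast at this ⊢; linear_combination -this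
    · rintro a' ⟨ha', hb'⟩
      refine (hf.unique (h.mod_mem hb') hx.1.1 ha' hx.1.2 ?_).2
      simp only [nsmul_eq_mul, ZMod.intCast_mod]
      rw [hx.2]; push_cast; ring

/-- the class of `A` modulo `p`, divided by `p` -/
def cls (A : Finset ℤ) (p : ℕ) (i : ℤ) : Finset ℤ :=
  (A.filter (fun a => a % p = i)).image (fun a => a / p)

lemma mem_cls {p : ℕ} (hp : p ≠ 0) {i x : ℤ} (h0 : 0 ≤ i) (h1 : i < p) :
    x ∈ cls A p i ↔ i + p * x ∈ A := by
  have hp' : (p : ℤ) ≠ 0 := by exact_mod_cast hp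
  simp only [cls, mem_image, mem_filter]
  constructor
  · rintro ⟨a, ⟨ha, e⟩, rfl⟩
    rw [← e, Int.emod_add_mul_ediv]; exact ha
  · intro hx
    refine ⟨_, ⟨hx, ?_⟩, ?_⟩
    · rw [Int.add_mul_emod_self_left, Int.emod_eq_of_lt h0 h1]
    · rw [Int.add_mul_ediv_left _ _ hp', Int.ediv_eq_zero_of_lt h0 h1, zero_add]

lemma Tl.redB (h : Tl w A B) (p w' : ℕ) (hp : p ≠ 0) (hw : w = p * w') (c : ℤ)
    (hB : ∀ b ∈ B, (p : ℤ) ∣ b - c) {i : ℤ} (h0 : 0 ≤ i) (h1 : i < p) :
    Tl w' (cls A p i) {y | c + p * y ∈ B} := by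
  have hp' : (p : ℤ) ≠ 0 := by exact_mod_cast hp
  refine ⟨Nat.pos_of_mul_pos_left (hw ▸ h.pos), ?_, ?_⟩
  · intro y
    simp only [Set.mem_ofPred_eq]
    rw [← h.per (c + p * y), hw]; push_cast; ring_nf
  · intro z
    obtain ⟨a, ⟨ha, hb⟩, hu⟩ := h.til (c + i + p * z)
    obtain ⟨t, ht⟩ := hB _ hb
    have e : a = i + p * (z - t) := by linear_combination -ht
    refine ⟨z - t, ⟨(mem_cls hp h0 h1).2 (e ▸ ha), ?_⟩, ?_⟩
    · simp only [Set.mem_ofPred_eq]
      convert hb using 1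
      rw [e]; ring
    · rintro x ⟨hx, hx'⟩
      have := hu (i + p * x) ⟨(mem_cls hp h0 h1).1 hx, by
        simp only [Set.mem_ofPred_eq] at hx'
        convert hx' using 1; ring⟩
      rw [e] at this
      exact mul_left_cancel₀ hp' (add_left_cancel this)

lemma card_cls (A : Finset ℤ) (p : ℕ) (i : ℤ) :
    (cls A p i).card = (A.filter (fun a => a % p = i)).card := by
  refine card_image_of_injOn (fun a ha b hb e => ?_)
  simp only [coe_filter, Set.mem_ofPred_eq] at ha hb e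
  rw [← Int.emod_add_mul_ediv a p, ← Int.emod_add_mul_ediv b p, ha.2, hb.2, e]

lemma sum_cls (A : Finset ℤ) (p : ℕ) (hp : p ≠ 0) :
    A.card = ∑ i ∈ Ico (0 : ℤ) p, (cls A p i).card := by
  have hp' : (0 : ℤ) < p := by exact_mod_cast Nat.pos_of_ne_zero hp
  simp only [card_cls]
  refine card_eq_sum_card_fiberwise (fun a _ => ?_)
  simp only [coe_Ico, Set.mem_Ico]
  exact ⟨Int.emod_nonneg _ hp'.ne', Int.emod_lt_of_pos _ hp'⟩

lemma cls_ini (A : Finset ℤ) (p n' : ℕ) (hp : p ≠ 0) {i : ℤ} (h0 : 0 ≤ i) (h1 : i < p) :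
    cls (ini (p * n') A) p i ⊆ ini n' (cls A p i) := by
  intro x hx
  rw [mem_cls hp h0 h1] at hx
  simp only [ini, mem_filter] at hx ⊢
  have hp' : (0 : ℤ) < p := by exact_mod_cast Nat.pos_of_ne_zero hp
  refine ⟨(mem_cls hp h0 h1).2 hx.1, ?_, ?_⟩
  · by_contra hc
    have : (p : ℤ) * x ≤ p * (-1) := mul_le_mul_of_nonneg_left (by omega) hp'.le
    omega
  · by_contra hc
    have : (p : ℤ) * n' ≤ p * x := mul_le_mul_of_nonneg_left (by omega) hp'.le
    have h3 := hx.2.2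
    push_cast at h3
    omega

/-- Frobenius step: if `B` is not periodic modulo `w / p`, two elements of the dense part differ
by `p` times a difference of `B`. -/
lemma Tl.frob_step (h : Tl w A B) (p w' : ℕ) (hp : p.Prime) (hw : w = p * w')
    (hd : p ∣ (bar w B).card) (n : ℕ) (hden : A.card < 2 * (ini n A).card)
    (hnp : ¬ ∀ y : ℤ, y + w' ∈ B ↔ y ∈ B) :
    ∃ a ∈ ini n A, ∃ a' ∈ ini n A, a ≠ a' ∧ ∃ b ∈ B, ∃ b' ∈ B,
      (a : ZMod w) - a' = p * ((b : ZMod w) - b') := by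
  have : NeZero w := ⟨h.pos.ne'⟩
  have := Fact.mk hp
  set c : ZMod w → ℕ := fun x => ((bar w B).filter (fun b : ℤ => p • (b : ZMod w) = x)).card with hc
  have hP : ∀ z : ZMod w, ∑ a ∈ A, (c (z - (a : ZMod w)) : ZMod p) = 0 := by
    intro z
    have h1 := h.fam.frob p hp z
    rw [(ZMod.natCast_eq_zero_iff _ _).2 hd, zero_pow (by have := hp.two_le; omega)] at h1
    rw [← h1, ← Nat.cast_sum]
    congr 1
    unfold rep
    rw [card_filter, sum_product]
    refine sum_congr rfl (fun a _ => ?_)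
    rw [hc]
    simp only
    rw [card_filter]
    refine sum_congr rfl (fun b _ => ?_)
    simp only [eq_sub_iff_add_eq, add_comm]
  -- a point of `B` whose fibre is not full
  obtain ⟨b0, hb0, y0, hy0, hby⟩ : ∃ b0 ∈ B, ∃ y0 ∉ B, (w' : ℤ) ∣ y0 - b0 := by
    push Not at hnp
    obtain ⟨y, hy⟩ := hnp
    rcases hy with ⟨h1, h2⟩ | ⟨h1, h2⟩
    · exact ⟨_, h1, _, h2, by simp⟩
    · exact ⟨_, h2, _, h1, by simp⟩
  have hw' : (0 : ℤ) < w' := by exact_mod_cast Nat.pos_of_mul_pos_left (hw ▸ h.pos)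
  have hw0 : (0 : ℤ) < w := by exact_mod_cast h.pos
  have hc0 : (c (p • (b0 : ZMod w)) : ZMod p) ≠ 0 := by
    rw [Ne, ZMod.natCast_eq_zero_iff]
    have hlow : 0 < c (p • (b0 : ZMod w)) :=
      card_pos.2 ⟨b0 % w, mem_filter.2 ⟨h.mod_mem hb0, by simp⟩⟩
    have hup : c (p • (b0 : ZMod w)) < p := by
      set T := (Ico (0 : ℤ) w).filter (fun y => y ≡ b0 [ZMOD w']) with hT
      have hTc : T.card = p := by
        have := Int.Ico_filter_modEq_card 0 (w : ℤ) hw' b0
        rw [hw] at this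
        have e : ((((p * w' : ℕ) : ℤ) : ℚ) - b0) / (w' : ℤ) = (((0 : ℤ) : ℚ) - b0) / (w' : ℤ) + p := by
          have : ((w' : ℤ) : ℚ) ≠ 0 := by exact_mod_cast hw'.ne'
          push_cast at this ⊢; field_simp; ring
        rw [e, Int.ceil_add_natCast, add_sub_cancel_left] at this
        rw [hT, hw]
        have h5 : max (p : ℤ) 0 = p := max_eq_left (by positivity)
        rw [h5] at this
        exact_mod_cast this
      refine lt_of_lt_of_eq (card_lt_card ⟨?_, ?_⟩) hTc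
      · intro b hb
        simp only [mem_filter, mem_bar, nsmul_eq_mul] at hb
        simp only [hT, mem_filter, mem_Ico]
        refine ⟨hb.1.1, ?_⟩
        have h2 : ((p * b0 : ℤ) : ZMod w) = ((p * b : ℤ) : ZMod w) := by push_cast; exact hb.2.symm
        rw [ZMod.intCast_eq_intCast_iff_dvd_sub, hw] at h2
        push_cast at h2
        rw [← mul_sub] at h2
        have hp0 : (p : ℤ) ≠ 0 := by exact_mod_cast hp.ne_zero
        exact (Int.modEq_iff_dvd.2 ((mul_dvd_mul_iff_left hp0).1 h2)).symm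
      · intro hsub
        have h2 : y0 % w ∈ T := by
          simp only [hT, mem_filter, mem_Ico]
          refine ⟨⟨Int.emod_nonneg _ hw0.ne', Int.emod_lt_of_pos _ hw0⟩, ?_⟩
          have h3 : y0 % w ≡ y0 [ZMOD w'] :=
            (Int.mod_modEq y0 w).of_dvd (by rw [hw]; push_cast; exact Dvd.intro_left _ rfl)
          exact h3.trans (Int.modEq_iff_dvd.2 hby).symm
        have h4 := (mem_bar.1 (mem_filter.1 (hsub h2)).1).2
        exact hy0 ((h.congr' (by simp)).1 h4)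
    exact Nat.not_dvd_of_pos_of_lt hlow hup
  obtain ⟨a, ha, a', ha', hne, x, x', hx, hx', e⟩ := majority A (ini n A) (filter_subset _ _) hden
    (fun a : ℤ => (a : ZMod w)) (fun x => (c x : ZMod p)) hP _ hc0
  have key : ∀ x, (c x : ZMod p) ≠ 0 → ∃ b ∈ B, (p : ZMod w) * (b : ZMod w) = x := by
    intro x hx
    have : 0 < c x := Nat.pos_of_ne_zero (fun h0 => hx (by rw [h0, Nat.cast_zero]))
    obtain ⟨b, hb⟩ := card_pos.1 this
    simp only [mem_filter, mem_bar, nsmul_eq_mul] at hb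
    exact ⟨b, hb.1.2, hb.2⟩
  obtain ⟨b, hb, rfl⟩ := key x hx
  obtain ⟨b', hb', rfl⟩ := key x' hx'
  exact ⟨a, ha, a', ha', hne, b', hb', b, hb, by linear_combination e⟩

end Pool.Agent.Work.MP_3587fb_co
end

-- merged part: Pool.Agent.Work.MP_3587fb_co.Main
section
/-! The odd step, the parity step and the induction. -/

namespace Pool.Agent.Work.MP_3587fb_co

open Finset

variable {w : ℕ} {A A' : Finset ℤ} {B : Set ℤ}

/-- a difference of `B` is a unit times a divisor `d` of `w`, and unit multiples of `d` are not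
differences of `A` -/
lemma Tl.avoid (h : Tl w A B) {b b' : ℤ} (hb : b ∈ B) (hb' : b' ∈ B) {d : ℕ} {u : ZMod w}
    (hu : IsUnit u) (e : (b : ZMod w) - b' = u * d) {v : ZMod w} (hv : IsUnit v) {a a' : ℤ}
    (ha : a ∈ A) (ha' : a' ∈ A) (e' : (a : ZMod w) - a' = v * d) : a = a' := by
  obtain ⟨u, rfl⟩ := hu
  refine h.sands (hv.mul (u⁻¹).isUnit) ha ha' hb hb' ?_
  rw [e, e', mul_assoc, ← mul_assoc (↑u⁻¹ : ZMod w), Units.inv_mul, one_mul]

lemma Tl.odd_step (h : Tl w A B) (hodd : Odd w) (p w' : ℕ) (hp : p.Prime) (hw : w = p * w')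
    (hd : p ∣ (bar w B).card) (hden : A.card < 2 * (ini A.card A).card) :
    ∀ y : ℤ, y + w' ∈ B ↔ y ∈ B := by
  by_contra hnp
  have : NeZero w := ⟨h.pos.ne'⟩
  obtain ⟨a, ha, a', ha', hne, b, hb, b', hb', e⟩ := h.frob_step p w' hp hw hd _ hden hnp
  obtain ⟨d, hdw, u, hu, hx⟩ := ZMod.eq_unit_mul_divisor ((b : ZMod w) - (b' : ZMod w))
  simp only [ini, mem_filter] at ha ha'
  obtain ⟨r, hr⟩ := hdw
  have hd0 : 0 < d := Nat.pos_of_mul_pos_right (hr ▸ h.pos)
  by_cases hpr : p ∣ r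
  · -- `p d` divides `a - a'`
    have hpd : p * d ∣ w := by
      obtain ⟨t, rfl⟩ := hpr
      exact ⟨t, by rw [hr]; ring⟩
    have h1 : ((a' : ℤ) : ZMod (p * d)) = a := by
      have h2 := congrArg (ZMod.castHom hpd (ZMod (p * d))) e
      rw [hx, ← mul_assoc, mul_comm (p : ZMod w) u, mul_assoc, ← Nat.cast_mul, map_mul,
        map_natCast, ZMod.natCast_self, mul_zero, map_sub, map_intCast, map_intCast] at h2
      exact (sub_eq_zero.1 h2).symm
    rw [ZMod.intCast_eq_intCast_iff_dvd_sub] at h1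
    have h3 := Int.le_abs_of_dvd (sub_ne_zero.2 hne) h1
    have h4 : |a - a'| < A.card := by rw [abs_lt]; omega
    have h5 : 2 * d ≤ p * d := Nat.mul_le_mul_right d hp.two_le
    have h6 : 2 * d ≤ A.card := by omega
    have h2u : IsUnit ((2 : ℕ) : ZMod w) := by
      rw [ZMod.isUnit_iff_coprime]; exact Nat.coprime_two_left.2 hodd
    have := half_odd A.card d A h6
      (fun x hx1 hx2 => by
        have := h.avoid hb hb' hu hx isUnit_one hx2 hx1 (by push_cast; ring)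
        omega)
      (fun x hx1 hx2 => by
        have := h.avoid hb hb' hu hx h2u hx2 hx1 (by push_cast; ring)
        omega)
    omega
  · -- `p d` is a unit multiple of `d`
    have hr0 : r ∣ w := ⟨d, by rw [hr]; ring⟩
    have hpu : IsUnit ((p : ℕ) : ZMod r) := by
      rw [ZMod.isUnit_iff_coprime]; exact (Nat.Prime.coprime_iff_not_dvd hp).2 hpr
    obtain ⟨v, hv⟩ := ZMod.unitsMap_surjective hr0 hpu.unit
    have hv1 : (((v : ZMod w).val : ℕ) : ZMod r) = (p : ZMod r) := by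
      have := congrArg Units.val hv
      rw [ZMod.unitsMap_def, Units.coe_map, IsUnit.unit_spec, MonoidHom.coe_coe,
        ZMod.castHom_apply] at this
      rw [ZMod.natCast_val, this]
    have hv2 : (v : ZMod w) * d = p * d := by
      rw [← ZMod.natCast_zmod_val (v : ZMod w), ← Nat.cast_mul, ← Nat.cast_mul,
        ZMod.natCast_eq_natCast_iff]
      rw [ZMod.natCast_eq_natCast_iff] at hv1
      have := hv1.mul_right' d
      rwa [mul_comm r d, ← hr] at this
    refine hne (h.avoid hb hb' hu hx (v.isUnit.mul hu) ha.1 ha'.1 ?_)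
    rw [e, hx]
    linear_combination (-u) * hv2

lemma pair_bound (X Y : Finset ℤ) (q p m : ℕ) (hq : q ≠ 0) (hp : 0 < p) (hm : X.card + Y.card = m)
    (hm0 : 0 < m) (hc : ∀ c : ℤ, p * (cnt X q c + cnt Y q c) ≤ m) :
    (((X ×ˢ Y).filter (fun x => (q : ℤ) ∣ x.1 - x.2)).card : ℚ) ≤ X.card * Y.card / p := by
  have : NeZero q := ⟨hq⟩
  set x : ZMod q → ℕ := fun c => (X.filter (fun y : ℤ => (y : ZMod q) = c)).card with hx
  set y : ZMod q → ℕ := fun c => (Y.filter (fun y : ℤ => (y : ZMod q) = c)).card with hy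
  have sx : X.card = ∑ c, x c :=
    card_eq_sum_card_fiberwise (fun _ _ => mem_coe.2 (mem_univ _))
  have sy : Y.card = ∑ c, y c :=
    card_eq_sum_card_fiberwise (fun _ _ => mem_coe.2 (mem_univ _))
  have sp : ((X ×ˢ Y).filter (fun x => (q : ℤ) ∣ x.1 - x.2)).card = ∑ c, x c * y c := by
    rw [card_eq_sum_card_fiberwise (f := fun z : ℤ × ℤ => (z.1 : ZMod q)) (t := univ)
      (fun _ _ => mem_coe.2 (mem_univ _))]
    refine sum_congr rfl (fun c _ => ?_)
    rw [hx, hy]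
    simp only
    rw [← card_product]
    congr 1
    ext ⟨s, t⟩
    simp only [mem_filter, mem_product, ← ZMod.intCast_eq_intCast_iff_dvd_sub]
    constructor
    · rintro ⟨⟨⟨h1, h2⟩, h3⟩, h4⟩
      exact ⟨⟨h1, h4⟩, h2, h3.trans h4⟩
    · rintro ⟨⟨h1, h4⟩, h2, h3⟩
      exact ⟨⟨⟨h1, h2⟩, h3.trans h4.symm⟩, h4⟩
  have hb : ∀ c, (p : ℚ) * (x c + y c) ≤ m := by
    intro c
    obtain ⟨c, rfl⟩ := ZMod.intCast_surjective c
    have e1 : ∀ S : Finset ℤ, cnt S q c = (S.filter (fun y : ℤ => (y : ZMod q) = c)).card := by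
      intro S
      unfold cnt
      congr 1
      refine filter_congr (fun y _ => ?_)
      rw [eq_comm, ZMod.intCast_eq_intCast_iff_dvd_sub]
    have := hc c
    rw [e1, e1] at this
    exact_mod_cast this
  have hp' : (0 : ℚ) < p := by exact_mod_cast hp
  have hm' : (0 : ℚ) < m := by exact_mod_cast hm0
  have hmq : (X.card : ℚ) + Y.card = m := by exact_mod_cast hm
  set U : ℚ := (X.card : ℚ)
  set V : ℚ := (Y.card : ℚ)
  have term : ∀ c, (x c : ℚ) * y c * (p * m) ≤ V ^ 2 * x c + U ^ 2 * y c := by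
    intro c
    have h0 : (0 : ℚ) ≤ V ^ 2 * x c + U ^ 2 * y c := by positivity
    have h1 : (x c : ℚ) * y c * m ^ 2 ≤ (x c + y c) * (V ^ 2 * x c + U ^ 2 * y c) := by
      rw [← hmq]
      nlinarith [sq_nonneg (V * x c - U * y c)]
    have h2 := mul_le_mul_of_nonneg_right (hb c) h0
    have h3 : (x c : ℚ) * y c * (p * m) * m ≤ (V ^ 2 * x c + U ^ 2 * y c) * m := by
      nlinarith [mul_le_mul_of_nonneg_left h1 hp'.le]
    exact le_of_mul_le_mul_right h3 hm'
  have hs := sum_le_sum (fun c (_ : c ∈ (univ : Finset (ZMod q))) => term c)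
  rw [← sum_mul, sum_add_distrib, ← mul_sum, ← mul_sum] at hs
  have sx' : ∑ c, (x c : ℚ) = U := by rw [show U = (X.card : ℚ) from rfl, sx]; push_cast; rfl
  have sy' : ∑ c, (y c : ℚ) = V := by rw [show V = (Y.card : ℚ) from rfl, sy]; push_cast; rfl
  rw [sx', sy'] at hs
  rw [sp, le_div_iff₀ hp']
  push_cast
  refine le_of_mul_le_mul_right ?_ hm'
  calc (∑ c, (x c : ℚ) * y c) * p * m = (∑ c, (x c : ℚ) * y c) * (p * m) := by ring
    _ ≤ V ^ 2 * U + U ^ 2 * V := hs
    _ = U * V * m := by rw [← hmq]; ring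

lemma Tl.parity_step (h : Tl w A B) (h2 : 2 ∣ A.card)
    (hrad : ∀ p, p.Prime → p ∣ (bar w B).card → p ∣ A.card)
    (hden : A.card < 2 * (ini A.card A).card)
    (hsum : ∑ p ∈ (Nat.gcd A.card (bar w B).card).primeFactors.erase 2, (1 : ℚ) / p < 1) :
    ∃ c : ℤ, ∀ b ∈ B, ((2 : ℕ) : ℤ) ∣ b - c := by
  have : NeZero w := ⟨h.pos.ne'⟩
  set n := A.card with hn
  set m := (bar w B).card with hm
  have hnm : n * m = w := h.card
  have hn0 : n ≠ 0 := h.cpos.ne'
  have hm0 : 0 < m := h.bar_pos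
  have h2w : 2 ∣ w := hnm ▸ h2.mul_right m
  set R := (Nat.gcd n m).primeFactors.erase 2 with hR
  set X := (bar w B).filter (fun b => b % 2 = 0) with hX
  set Y := (bar w B).filter (fun b => ¬ b % 2 = 0) with hY
  have hXY : X.card + Y.card = m := card_filter_add_card_filter_not _
  have hmod : ∀ b : ℤ, b % w % 2 = b % 2 := fun b =>
    Int.emod_emod_of_dvd b (by exact_mod_cast h2w)
  by_contra hcon
  push Not at hcon
  have hXp : 0 < X.card := by
    obtain ⟨b, hb, hb'⟩ := hcon 1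
    exact card_pos.2 ⟨b % w, mem_filter.2 ⟨h.mod_mem hb, by rw [hmod]; omega⟩⟩
  have hYp : 0 < Y.card := by
    obtain ⟨b, hb, hb'⟩ := hcon 0
    exact card_pos.2 ⟨b % w, mem_filter.2 ⟨h.mod_mem hb, by rw [hmod]; omega⟩⟩
  set q : ℕ → ℕ := fun p => p ^ (n.factorization p + 1) with hq
  have hcover : X ×ˢ Y ⊆ R.biUnion
      (fun p => (X ×ˢ Y).filter (fun x => (q p : ℤ) ∣ x.1 - x.2)) := by
    rintro ⟨b, b'⟩ hx
    have hx' := hx
    simp only [mem_product, hX, hY, mem_filter, mem_bar] at hx'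
    obtain ⟨⟨⟨-, hb⟩, hb0⟩, ⟨-, hb'⟩, hb1⟩ := hx'
    obtain ⟨d, hdw, u, hu, e⟩ := ZMod.eq_unit_mul_divisor ((b : ZMod w) - (b' : ZMod w))
    have hd0 : 0 < d := Nat.pos_of_dvd_of_pos hdw h.pos
    have hdx : (d : ℤ) ∣ b - b' := by
      have h3 := congrArg (ZMod.castHom hdw (ZMod d)) e
      rw [map_mul, map_natCast, ZMod.natCast_self, mul_zero, map_sub, map_intCast,
        map_intCast] at h3
      rw [← ZMod.intCast_eq_intCast_iff_dvd_sub]
      exact (sub_eq_zero.1 h3).symm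
    have hd2 : ¬ 2 ∣ d := by
      intro h3
      have : (2 : ℤ) ∣ b - b' := (by exact_mod_cast h3 : (2 : ℤ) ∣ d).trans hdx
      omega
    have hdn : ¬ d ∣ n := by
      intro h3
      have h4 : 2 * d ∣ n := Nat.Coprime.mul_dvd_of_dvd_of_dvd
        ((Nat.Prime.coprime_iff_not_dvd Nat.prime_two).2 hd2) h2 h3
      have := half_even n d A hd0 h4 (fun x hx1 hx2 => by
        have := h.avoid hb hb' hu e isUnit_one hx2 hx1 (by push_cast; ring)
        omega)
      omega
    rw [← Nat.factorization_prime_le_iff_dvd hd0.ne' hn0] at hdn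
    push Not at hdn
    obtain ⟨p, hp, hlt⟩ := hdn
    have hqd : q p ∣ d := (hp.pow_dvd_iff_le_factorization hd0.ne').2 hlt
    have hpd : p ∣ d := (dvd_pow_self p (by omega)).trans hqd
    have hpm : p ∣ m := by
      by_contra h5
      have h6 : q p ∣ n * m := hnm ▸ hqd.trans hdw
      have h7 : q p ∣ n := Nat.Coprime.dvd_of_dvd_mul_right
        (Nat.Coprime.pow_left _ ((Nat.Prime.coprime_iff_not_dvd hp).2 h5)) h6
      exact Nat.pow_succ_factorization_not_dvd hn0 hp h7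
    refine mem_biUnion.2 ⟨p, ?_, mem_filter.2 ⟨hx, ?_⟩⟩
    · rw [hR, mem_erase, Nat.mem_primeFactors]
      refine ⟨fun h5 => hd2 (h5 ▸ hpd), hp, Nat.dvd_gcd (hrad p hp hpm) hpm, ?_⟩
      exact Nat.gcd_ne_zero_left hn0
    · exact (Int.natCast_dvd_natCast.2 hqd).trans hdx
  have h1 := (card_le_card hcover).trans card_biUnion_le
  rw [card_product] at h1
  have h3 : ((X.card * Y.card : ℕ) : ℚ) ≤ ∑ p ∈ R, (X.card * Y.card : ℚ) / p := by
    refine (Nat.cast_le.2 h1).trans ?_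
    push_cast
    refine sum_le_sum (fun p hp => ?_)
    rw [hR, mem_erase, Nat.mem_primeFactors] at hp
    have hpp := hp.2.1
    have hpm : p ∣ m := hp.2.2.1.trans (Nat.gcd_dvd_right _ _)
    refine pair_bound X Y (q p) p m (pow_ne_zero _ hpp.ne_zero) hpp.pos hXY hm0 (fun c => ?_)
    have hqw : q p ∣ w := by
      rw [← hnm, hq]
      simp only
      rw [pow_succ]
      exact mul_dvd_mul (Nat.ordProj_dvd n p) hpm
    have h4 := h.fam.class_bound p _ hpp hqw (Nat.pow_succ_factorization_not_dvd hn0 hpp) c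
    have h5 : cnt X (q p) c + cnt Y (q p) c = cnt (bar w B) (q p) c := by
      unfold cnt
      rw [hX, hY, filter_comm, filter_comm (fun b : ℤ => ¬ b % 2 = 0)]
      exact card_filter_add_card_filter_not _
    rw [h5]; exact h4
  have h4 : ∑ p ∈ R, (X.card * Y.card : ℚ) / p = X.card * Y.card * ∑ p ∈ R, (1 : ℚ) / p := by
    rw [mul_sum]; exact sum_congr rfl (fun p _ => by ring)
  rw [h4] at h3
  push_cast at h3
  have h5 : (0 : ℚ) < X.card * Y.card := by positivity
  nlinarith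

/-- the arithmetic hypothesis on `g = gcd(n, w / n)` -/
def Hyp (g : ℕ) : Prop := Odd g ∨ ∑ p ∈ g.primeFactors.erase 2, (1 : ℚ) / p < 1

lemma Hyp.mono {g g' : ℕ} (h : Hyp g) (hg : g ≠ 0) (hd : g' ∣ g) : Hyp g' := by
  rcases h with h | h
  · exact Or.inl (h.of_dvd_nat hd)
  · refine Or.inr (lt_of_le_of_lt (sum_le_sum_of_subset_of_nonneg ?_ ?_) h)
    · exact erase_subset_erase _ (Nat.primeFactors_mono hd hg)
    · intro _ _ _; positivity

/-- `A` is injective modulo `n` -/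
def Comp (n : ℕ) (A : Finset ℤ) : Prop := ∀ a ∈ A, ∀ a' ∈ A, (n : ℤ) ∣ a - a' → a = a'

/-- the statement proved by induction on the period -/
def Stmt (w : ℕ) : Prop := ∀ (A A' : Finset ℤ) (B : Set ℤ), Tl w A B → Tl w A' B →
  A.card < 2 * (ini A.card A).card → Hyp (Nat.gcd A.card (bar w B).card) → Comp A.card A'

lemma coset_step {w : ℕ} (p w' : ℕ) (hp : p ≠ 0) (hw : w = p * w') (ih : Stmt w')
    {A A' : Finset ℤ} {B : Set ℤ} (h : Tl w A B) (h' : Tl w A' B)
    (hden : A.card < 2 * (ini A.card A).card) (hH : Hyp (Nat.gcd A.card (bar w B).card))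
    (c : ℤ) (hB : ∀ b ∈ B, (p : ℤ) ∣ b - c) : Comp A.card A' := by
  have hp' : (0 : ℤ) < p := by exact_mod_cast Nat.pos_of_ne_zero hp
  set B' : Set ℤ := {y | c + p * y ∈ B}
  have t0 := h.redB p w' hp hw c hB le_rfl hp'
  set n' := (cls A p 0).card with hn'
  have hall : ∀ i ∈ Ico (0 : ℤ) p, (cls A p i).card = n' := fun i hi =>
    t0.card_eq (h.redB p w' hp hw c hB (mem_Ico.1 hi).1 (mem_Ico.1 hi).2)
  have hn : A.card = p * n' := by
    rw [sum_cls A p hp, sum_congr rfl hall]; simp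
  have hm : (bar w' B').card = (bar w B).card := by
    refine Nat.eq_of_mul_eq_mul_left h.cpos ?_
    rw [h.card, hn, mul_assoc, hw, t0.card]
  obtain ⟨i, hi, hd⟩ : ∃ i ∈ Ico (0 : ℤ) p, n' < 2 * (ini n' (cls A p i)).card := by
    by_contra hc
    push Not at hc
    have h1 := sum_le_sum hc
    have h2 : (ini A.card A).card ≤ ∑ i ∈ Ico (0 : ℤ) p, (ini n' (cls A p i)).card := by
      rw [sum_cls _ p hp, hn]
      exact sum_le_sum (fun i hi => card_le_card
        (cls_ini A p n' hp (mem_Ico.1 hi).1 (mem_Ico.1 hi).2))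
    rw [← mul_sum] at h1
    simp only [sum_const, Int.card_Ico, sub_zero, Int.toNat_natCast, smul_eq_mul] at h1
    omega
  have ti := h.redB p w' hp hw c hB (mem_Ico.1 hi).1 (mem_Ico.1 hi).2
  intro a ha a' ha' hdv
  have j0 := Int.emod_nonneg a hp'.ne'
  have j1 := Int.emod_lt_of_pos a hp'
  have tj := h'.redB p w' hp hw c hB j0 j1
  have hc := ih _ _ _ ti tj (by rw [hall i hi]; exact hd) (by
    rw [hall i hi, hm]
    refine hH.mono (Nat.gcd_ne_zero_left h.cpos.ne') ?_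
    exact Nat.gcd_dvd_gcd_of_dvd_left _ (Dvd.intro_left _ hn.symm))
  rw [hall i hi] at hc
  rw [hn] at hdv
  push_cast at hdv
  obtain ⟨t, ht⟩ := hdv
  have e1 : a = a % p + p * (a / p) := (Int.emod_add_mul_ediv a p).symm
  have e2 : a' = a % p + p * (a / p - n' * t) := by linear_combination e1 - ht
  have := hc (a / p) ((mem_cls hp j0 j1).2 (e1 ▸ ha)) (a / p - n' * t)
    ((mem_cls hp j0 j1).2 (e2 ▸ ha')) ⟨t, by ring⟩
  rw [e2, ← this, ← e1]

lemma same_step {w : ℕ} (p w' : ℕ) (hw : w = p * w') (ih : Stmt w')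
    {A A' : Finset ℤ} {B B' : Set ℤ} (h : Tl w A B) (t : Tl w' A B') (t' : Tl w' A' B')
    (hden : A.card < 2 * (ini A.card A).card) (hH : Hyp (Nat.gcd A.card (bar w B).card)) :
    Comp A.card A' := by
  refine ih _ _ _ t t' hden (hH.mono (Nat.gcd_ne_zero_left h.cpos.ne') ?_)
  refine Nat.gcd_dvd_gcd_of_dvd_right _ ⟨p, Nat.eq_of_mul_eq_mul_left h.cpos ?_⟩
  rw [h.card, ← mul_assoc, t.card, hw, mul_comm]

theorem stmt (w : ℕ) : Stmt w := by
  induction w using Nat.strong_induction_on with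
  | _ w ih =>
  intro A A' B h h' hden hH
  have hnm := h.card
  have red : ∀ p, p.Prime → p ∣ w → ∃ w', w = p * w' ∧ Stmt w' := by
    rintro p hp ⟨w', hw⟩
    refine ⟨w', hw, ih w' ?_⟩
    have h0 : 0 < w' := Nat.pos_of_mul_pos_left (hw ▸ h.pos)
    have := hp.two_le
    nlinarith
  by_cases hm1 : (bar w B).card = 1
  · intro a ha a' ha' hd
    rw [hm1, mul_one] at hnm
    rw [hnm] at hd
    obtain ⟨b, hb⟩ := card_pos.1 h.bar_pos
    have hb' := (mem_bar.1 hb).2
    refine h'.sands isUnit_one ha ha' hb' hb' ?_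
    rw [sub_self, mul_zero, sub_eq_zero, eq_comm, ZMod.intCast_eq_intCast_iff_dvd_sub]
    exact hd
  by_cases hrad : ∀ p, p.Prime → p ∣ (bar w B).card → p ∣ A.card
  swap
  · push Not at hrad
    obtain ⟨p, hp, hpm, hpn⟩ := hrad
    obtain ⟨w', hw, hs⟩ := red p hp (hnm ▸ hpm.mul_left _)
    exact same_step p w' hw hs h (h.redA p w' hp hw hpn)
      (h'.redA p w' hp hw (by rwa [h.card_eq h'])) hden hH
  by_cases h2 : 2 ∣ A.card
  · obtain ⟨w', hw, hs⟩ := red 2 Nat.prime_two (hnm ▸ h2.mul_right _)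
    by_cases h2m : 2 ∣ (bar w B).card
    · rcases hH with hH1 | hH1
      · exact absurd (Nat.dvd_gcd h2 h2m) hH1.not_two_dvd_nat
      · obtain ⟨c, hc⟩ := h.parity_step h2 hrad hden hH1
        exact coset_step 2 w' two_ne_zero hw hs h h' hden (Or.inr hH1) c hc
    · have hc := (Nat.Prime.coprime_iff_not_dvd Nat.prime_two).2 h2m
      have t := h.dilB 2 two_ne_zero hc
      have t' := h'.dilB 2 two_ne_zero hc
      have hm : (bar w {y | ∃ b ∈ B, (w : ℤ) ∣ y - (2 : ℕ) * b}).card = (bar w B).card :=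
        Nat.eq_of_mul_eq_mul_left h.cpos (by rw [t.card, h.card])
      refine coset_step 2 w' two_ne_zero hw hs t t' hden (by rw [hm]; exact hH) 0 ?_
      rintro y ⟨b, -, k, hk⟩
      exact ⟨b + w' * k, by rw [hw] at hk; push_cast at hk ⊢; linear_combination hk⟩
  · have h2m : ¬ 2 ∣ (bar w B).card := fun h3 => h2 (hrad 2 Nat.prime_two h3)
    have hodd : Odd w := by
      rw [← hnm, ← Nat.not_even_iff_odd, even_iff_two_dvd, Nat.prime_two.dvd_mul]
      tauto
    have hp := Nat.minFac_prime hm1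
    have hpm := Nat.minFac_dvd (bar w B).card
    obtain ⟨w', hw, hs⟩ := red _ hp (hpm.trans (Dvd.intro_left _ hnm))
    have hper := h.odd_step hodd _ w' hp hw hpm hden
    have h0 : 0 < w' := Nat.pos_of_mul_pos_left (hw ▸ h.pos)
    exact same_step _ w' hw hs h ⟨h0, hper, h.til⟩ ⟨h0, hper, h'.til⟩ hden hH

end Pool.Agent.Work.MP_3587fb_co
end

-- merged part: Pool.Agent.Work.MP_3587fb_co.Char
section
/-! Characters of cyclic groups evaluated on the two factors of a factorization. -/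

namespace Pool.Agent.Work.MP_3587fb_co

open Finset

section Ev
variable {G : Type} [AddCommGroup G]

/-- evaluation of the integral group ring at a character -/
noncomputable def ev (ψ : AddChar G ℂ) : AddMonoidAlgebra ℤ G →ₐ[ℤ] ℂ :=
  AddMonoidAlgebra.lift ℤ ℂ G ψ.toMonoidHom

lemma ev_single (ψ : AddChar G ℂ) (a : G) (c : ℤ) :
    ev ψ (AddMonoidAlgebra.single a c) = c * ψ a := by
  simp [ev, AddMonoidAlgebra.lift_single]

lemma ev_ext [Fintype G] [DecidableEq G] (x : AddMonoidAlgebra ℤ G)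
    (h : ∀ ψ : AddChar G ℂ, ev ψ x = 0) : x = 0 := by
  have hx : x = ∑ g : G, AddMonoidAlgebra.single g (x.coeff g) := by
    ext z
    simp [AddMonoidAlgebra.coeff_sum]
  ext z
  have h1 : ∑ ψ : AddChar G ℂ, ev ψ x * ψ (-z) = 0 := by simp [h]
  have h2 : ∀ ψ : AddChar G ℂ, ev ψ x * ψ (-z) = ∑ g : G, (x.coeff g : ℂ) * ψ (g - z) := by
    intro ψ
    conv_lhs => rw [hx]
    rw [map_sum, sum_mul]
    refine sum_congr rfl (fun g _ => ?_)
    rw [ev_single, mul_assoc, ← AddChar.map_add_eq_mul, sub_eq_add_neg]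
  simp only [h2] at h1
  rw [sum_comm] at h1
  simp only [← mul_sum, AddChar.sum_apply_eq_ite, sub_eq_zero, mul_ite, mul_zero, sum_ite_eq',
    mem_univ, if_true] at h1
  have h3 : (Fintype.card G : ℂ) ≠ 0 := by exact_mod_cast Fintype.card_ne_zero
  have h4 := (mul_eq_zero.1 h1).resolve_right h3
  simpa using h4

end Ev

variable {ι κ : Type}

/-- the exponential sum of an integer family -/
noncomputable def hat (s : Finset ι) (f : ι → ℤ) (ζ : ℂ) : ℂ := ∑ i ∈ s, ζ ^ f i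

lemma ev_el {d : ℕ} (ψ : AddChar (ZMod d) ℂ) (s : Finset ι) (f : ι → ℤ) :
    ev ψ (el ℤ s (fun i => (f i : ZMod d))) = hat s f (ψ 1) := by
  unfold el hat
  rw [map_sum]
  refine sum_congr rfl (fun i _ => ?_)
  rw [ev_single, ← AddChar.map_zsmul_eq_zpow]
  simp

lemma char_pow {d : ℕ} (ψ : AddChar (ZMod d) ℂ) : ψ 1 ^ d = 1 := by
  rw [← AddChar.map_nsmul_eq_pow]
  simp

lemma Fam.hat_zero {w : ℕ} [NeZero w] {s : Finset ι} {t : Finset κ} {f : ι → ℤ} {g : κ → ℤ}
    (h : Fam s t (fun i => (f i : ZMod w)) (fun k => (g k : ZMod w))) {ζ : ℂ} (hw : ζ ^ w = 1)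
    (hne : ζ ≠ 1) (u : ℕ) (hu : Nat.Coprime u w) : hat s f ζ * hat t g (ζ ^ u) = 0 := by
  set χ := AddChar.zmodChar w hw
  have h2 : χ 1 = ζ := by
    have := AddChar.zmodChar_apply' hw 1
    simpa using this
  have hne' : χ ≠ 1 := by
    intro h1
    rw [h1, AddChar.one_apply] at h2
    exact hne h2.symm
  have hc : Nat.Coprime (u + w) t.card := by
    have := h.card
    rw [ZMod.card] at this
    have h6 : Nat.Coprime (u + w) w := by simpa using hu
    exact Nat.Coprime.coprime_dvd_right (Dvd.intro_left _ this) h6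
  have hf := Fam.tij (u + w) (by have := NeZero.ne w; omega) h hc
  have h3 := congrArg (ev χ) (hf.mul_eq ℤ)
  have h4 : (fun x => (u + w) • (g x : ZMod w)) = fun x => (((u * g x : ℤ)) : ZMod w) := by
    funext x; simp
  rw [h4, map_mul, ev_el, ev_el, h2] at h3
  have h5 : ev χ (el ℤ (univ : Finset (ZMod w)) id) = 0 := by
    unfold el
    rw [map_sum]
    simp only [ev_single, Int.cast_one, one_mul, id]
    exact AddChar.sum_eq_zero_of_ne_one hne'
  rw [h5] at h3
  rw [← h3]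
  congr 1
  unfold hat
  refine sum_congr rfl (fun k _ => ?_)
  rw [zpow_mul, zpow_natCast]

lemma exists_unit_pow {p v w1 : ℕ} (hp : p.Prime) {η ω : ℂ} (hη : η ^ (p ^ v * w1) = 1)
    (hω : ω ^ p = 1) (h1 : η ^ w1 ≠ 1) (h2 : (η * ω) ^ w1 ≠ 1) :
    ∃ u : ℕ, Nat.Coprime u (p ^ v * w1) ∧ η ^ u = η * ω := by
  have := Fact.mk hp
  set θ := η ^ w1 with hθ
  have hθ1 : θ ^ p ^ v = 1 := by rw [hθ, ← pow_mul, mul_comm, hη]
  obtain ⟨e, -, he⟩ := (Nat.dvd_prime_pow hp).1 (orderOf_dvd_of_pow_eq_one hθ1)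
  obtain ⟨e, rfl⟩ : ∃ e', e = e' + 1 := by
    rcases e with _ | e
    · exact absurd (orderOf_eq_one_iff.1 (by simpa using he)) h1
    · exact ⟨e, rfl⟩
  have hprim : IsPrimitiveRoot θ (p ^ (e + 1)) := he ▸ IsPrimitiveRoot.orderOf θ
  have hρ : IsPrimitiveRoot (θ ^ p ^ e) p :=
    hprim.pow (pow_pos hp.pos _) (by rw [pow_succ])
  have : NeZero p := ⟨hp.ne_zero⟩
  obtain ⟨t, -, ht⟩ := hρ.eq_pow_of_pow_eq_one hω
  have hu : η ^ (1 + w1 * (p ^ e * t)) = η * ω := by
    rw [pow_add, pow_one, pow_mul, pow_mul, ht]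
  refine ⟨1 + w1 * (p ^ e * t), Nat.Coprime.mul_right (Nat.Coprime.pow_right _ ?_) ?_, hu⟩
  · rw [Nat.coprime_comm, Nat.Prime.coprime_iff_not_dvd hp]
    intro hd
    rcases e with _ | e
    · apply h2
      obtain ⟨k, hk⟩ := hd
      rw [← hu, ← pow_mul, mul_comm, pow_mul, ← hθ, hk, pow_mul]
      have := hprim.pow_eq_one
      simp only [zero_add, pow_one] at this
      rw [this, one_pow]
    · have h3 : p ∣ w1 * (p ^ (e + 1) * t) :=
        Dvd.dvd.mul_left (Dvd.dvd.mul_right (dvd_pow_self p (by omega)) _) _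
      exact hp.one_lt.ne' (Nat.dvd_one.1 ((Nat.dvd_add_left h3).1 hd))
  · simp

/-- the class of a family modulo `p` -/
def cl (s : Finset ι) (f : ι → ℤ) (p : ℕ) (i : ZMod p) : Finset ι :=
  s.filter (fun x => (f x : ZMod p) = i)

lemma hat_cl {p : ℕ} [NeZero p] {ω : ℂ} (hω : IsPrimitiveRoot ω p) (s : Finset ι) (f : ι → ℤ)
    {ζ : ℂ} (i : ZMod p) :
    p * hat (cl s f p i) f ζ =
      ∑ l ∈ range p, (ω ^ (-(i.val : ℤ))) ^ l * hat s f (ζ * ω ^ l) := by
  have hω0 : ω ≠ 0 := hω.ne_zero (NeZero.ne p)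
  unfold hat cl
  simp only [mul_sum]
  rw [sum_comm, sum_filter]
  refine sum_congr rfl (fun x _ => ?_)
  have e : ∀ l : ℕ, (ω ^ (-(i.val : ℤ))) ^ l * (ζ * ω ^ l) ^ f x =
      (ω ^ (f x - i.val)) ^ l * ζ ^ f x := by
    intro l
    rw [mul_zpow, ← zpow_natCast, ← zpow_natCast, ← zpow_natCast, ← zpow_mul, ← zpow_mul,
      ← zpow_mul, show (f x - i.val) * l = -(i.val : ℤ) * l + l * f x by ring, zpow_add₀ hω0]
    ring
  simp only [e, ← sum_mul]
  have hiff : ω ^ (f x - i.val) = 1 ↔ (f x : ZMod p) = i := by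
    rw [hω.zpow_eq_one_iff_dvd, ← ZMod.intCast_eq_intCast_iff_dvd_sub]
    simp [eq_comm]
  split_ifs with h
  · rw [hiff.2 h]; simp
  · have h1 : ω ^ (f x - i.val) ≠ 1 := fun h2 => h (hiff.1 h2)
    rw [geom_sum_eq h1, ← zpow_natCast, ← zpow_mul, mul_comm _ (p : ℤ), zpow_mul, zpow_natCast,
      hω.pow_eq_one]
    simp

section Two
variable {p v w1 : ℕ} {s : Finset ι} {t : Finset κ} {f : ι → ℤ} {g : κ → ℤ}

lemma Fam.hat_orbit [NeZero (p ^ v * w1)] (hp : p.Prime)
    (h : Fam s t (fun i => (f i : ZMod (p ^ v * w1))) (fun k => (g k : ZMod (p ^ v * w1))))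
    (hv : v ≠ 0) {ζ ω : ℂ} (hζ : ζ ^ (p ^ v * w1) = 1) (hω : IsPrimitiveRoot ω p) (l l' : ℕ)
    (h1 : (ζ * ω ^ l) ^ w1 ≠ 1) (h2 : (ζ * ω ^ l') ^ w1 ≠ 1) :
    hat s f (ζ * ω ^ l) * hat t g (ζ * ω ^ l') = 0 := by
  have hω0 : ω ≠ 0 := hω.ne_zero hp.ne_zero
  have hη : (ζ * ω ^ l) ^ (p ^ v * w1) = 1 := by
    rw [mul_pow, hζ, one_mul, ← pow_mul]
    exact (hω.pow_eq_one_iff_dvd _).2 (Dvd.dvd.mul_left ((dvd_pow_self p hv).mul_right _) _)
  have e : ζ * ω ^ l * (ω ^ l' / ω ^ l) = ζ * ω ^ l' := by field_simp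
  obtain ⟨u, hu, hu'⟩ := exists_unit_pow (ω := ω ^ l' / ω ^ l) hp hη (by
    rw [div_pow, ← pow_mul, ← pow_mul, mul_comm l', mul_comm l, pow_mul, pow_mul, hω.pow_eq_one]
    simp) h1 (by rw [e]; exact h2)
  rw [← e, ← hu']
  exact h.hat_zero hη (fun h3 => h1 (by rw [h3, one_pow])) u hu

lemma Fam.hat_F1 [NeZero (p ^ v * w1)] [NeZero p] (hp : p.Prime)
    (h : Fam s t (fun i => (f i : ZMod (p ^ v * w1))) (fun k => (g k : ZMod (p ^ v * w1))))
    (hv : v ≠ 0) {ζ : ℂ} (hζ : ζ ^ (p ^ v * w1) = 1) (h1 : ζ ^ (p * w1) ≠ 1) (i j : ZMod p) :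
    hat (cl s f p i) f ζ * hat (cl t g p j) g ζ = 0 := by
  have hω := Complex.isPrimitiveRoot_exp p hp.ne_zero
  set ω := Complex.exp (2 * Real.pi * Complex.I / (p : ℂ))
  have key : ∀ l : ℕ, (ζ * ω ^ l) ^ w1 ≠ 1 := by
    intro l h2
    apply h1
    have h3 : ((ζ * ω ^ l) ^ w1) ^ p = 1 := by rw [h2, one_pow]
    rw [← pow_mul, mul_pow, ← pow_mul, mul_comm w1 p,
      (hω.pow_eq_one_iff_dvd _).2 (Dvd.dvd.mul_left (Dvd.intro _ rfl) _), mul_one] at h3
    exact h3
  have h4 : (p * hat (cl s f p i) f ζ) * (p * hat (cl t g p j) g ζ) = 0 := by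
    rw [hat_cl hω, hat_cl hω, sum_mul_sum]
    refine sum_eq_zero (fun l _ => sum_eq_zero (fun l' _ => ?_))
    rw [mul_mul_mul_comm, h.hat_orbit hp hv hζ hω l l' (key l) (key l'), mul_zero]
  have hp0 : (p : ℂ) ≠ 0 := by exact_mod_cast hp.ne_zero
  rw [mul_mul_mul_comm] at h4
  exact (mul_eq_zero.1 h4).resolve_left (mul_ne_zero hp0 hp0)

lemma Fam.hat_F2 [NeZero (p ^ v * w1)] [NeZero p] (hp : p.Prime) (hc : Nat.Coprime p w1)
    (h : Fam s t (fun i => (f i : ZMod (p ^ v * w1))) (fun k => (g k : ZMod (p ^ v * w1))))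
    (hv : v ≠ 0) {ζ : ℂ} (hζ : ζ ^ w1 = 1) (i j : ZMod p) :
    (p * hat (cl s f p i) f ζ - hat s f ζ) * (p * hat (cl t g p j) g ζ - hat t g ζ) = 0 := by
  have hω := Complex.isPrimitiveRoot_exp p hp.ne_zero
  set ω := Complex.exp (2 * Real.pi * Complex.I / (p : ℂ))
  have key : ∀ l ∈ (range p).erase 0, (ζ * ω ^ l) ^ w1 ≠ 1 := by
    intro l hl h2
    rw [mul_pow, hζ, one_mul, ← pow_mul, hω.pow_eq_one_iff_dvd] at h2
    have h3 := hc.dvd_of_dvd_mul_right h2
    rw [mem_erase, mem_range] at hl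
    exact hl.1 (Nat.eq_zero_of_dvd_of_lt h3 hl.2)
  have h0 : 0 ∈ range p := mem_range.2 hp.pos
  rw [hat_cl hω, hat_cl hω, ← add_sum_erase _ _ h0, ← add_sum_erase _ _ h0]
  simp only [pow_zero, one_mul, mul_one, add_sub_cancel_left]
  rw [sum_mul_sum]
  refine sum_eq_zero (fun l hl => sum_eq_zero (fun l' hl' => ?_))
  rw [mul_mul_mul_comm, h.hat_orbit hp hv (by rw [mul_comm, pow_mul, hζ, one_pow]) hω l l'
    (key l hl) (key l' hl'), mul_zero]

end Two

end Pool.Agent.Work.MP_3587fb_co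
end

-- merged part: Pool.Agent.Work.MP_3587fb_co.Shift
section
/-! The class-shift lemma: if one factor of a factorization of a cyclic group is equidistributed
modulo a prime `p`, the classes modulo `p` of the other factor can be shifted independently along
the `p`-part of the group. -/

namespace Pool.Agent.Work.MP_3587fb_co

open Finset

variable {ι κ : Type}

lemma closed_iter {w d : ℕ} (hw : w ≠ 0) {s : Finset ι} {t : Finset κ} {f : ι → ℤ} {g : κ → ℤ}
    (hcl : ∀ i ∈ s, ∀ k ∈ t, ∃ i' ∈ s, ∃ k' ∈ t,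
      (f i' : ZMod w) + g k' = f i + g k + d) {i : ι} (hi : i ∈ s) {k : κ} (hk : k ∈ t) (n : ℤ) :
    ∃ i' ∈ s, ∃ k' ∈ t, (f i' : ZMod w) + g k' = f i + g k + n * d := by
  have h1 : ∀ m : ℕ, ∃ i' ∈ s, ∃ k' ∈ t, (f i' : ZMod w) + g k' = f i + g k + m * d := by
    intro m
    induction m with
    | zero => exact ⟨i, hi, k, hk, by simp⟩
    | succ m ih =>
      obtain ⟨i1, hi1, k1, hk1, e1⟩ := ih
      obtain ⟨i2, hi2, k2, hk2, e2⟩ := hcl i1 hi1 k1 hk1
      exact ⟨i2, hi2, k2, hk2, by rw [e2, e1]; push_cast; ring⟩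
  have : NeZero w := ⟨hw⟩
  obtain ⟨i', hi', k', hk', e⟩ := h1 (n : ZMod w).val
  exact ⟨i', hi', k', hk', by rw [e]; simp⟩

lemma count_fibre {w c d : ℕ} (hw : w = c * d) (hw0 : w ≠ 0) {s : Finset ι} {t : Finset κ}
    {f : ι → ℤ} {g : κ → ℤ}
    (huniq : ∀ i ∈ s, ∀ i' ∈ s, ∀ k ∈ t, ∀ k' ∈ t,
      (f i : ZMod w) + g k = f i' + g k' → i = i' ∧ k = k')
    (hcl : ∀ i ∈ s, ∀ k ∈ t, ∃ i' ∈ s, ∃ k' ∈ t,
      (f i' : ZMod w) + g k' = f i + g k + d) {i : ι} (hi : i ∈ s) {k : κ} (hk : k ∈ t) :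
    ((s ×ˢ t).filter (fun x => (d : ℤ) ∣ f x.1 + g x.2 - (f i + g k))).card = c := by
  have hc0 : (0 : ℤ) < c := by
    have : c ≠ 0 := fun h => hw0 (by rw [hw, h, zero_mul])
    positivity
  have hd0 : (d : ℤ) ≠ 0 := by
    have : d ≠ 0 := fun h => hw0 (by rw [hw, h, mul_zero])
    exact_mod_cast this
  have hcard : (Ico (0 : ℤ) c).card = c := by simp
  rw [← hcard]
  refine card_bij (fun x _ => (f x.1 + g x.2 - (f i + g k)) / d % c) ?_ ?_ ?_
  · intro x _
    exact mem_Ico.2 ⟨Int.emod_nonneg _ hc0.ne', Int.emod_lt_of_pos _ hc0⟩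
  · rintro ⟨a, b⟩ hx ⟨a', b'⟩ hx' e
    simp only [mem_filter, mem_product] at hx hx' e
    obtain ⟨m, hm⟩ := hx.2
    obtain ⟨m', hm'⟩ := hx'.2
    rw [hm, hm', Int.mul_ediv_cancel_left _ hd0, Int.mul_ediv_cancel_left _ hd0] at e
    obtain ⟨r, hr⟩ := Int.ModEq.dvd e
    have h1 : ((f a + g b : ℤ) : ZMod w) = ((f a' + g b' : ℤ) : ZMod w) := by
      rw [ZMod.intCast_eq_intCast_iff_dvd_sub, hw]
      exact ⟨r, by push_cast; linear_combination hm' - hm + d * hr⟩
    push_cast at h1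
    obtain ⟨h2, h3⟩ := huniq a hx.1.1 a' hx'.1.1 b hx.1.2 b' hx'.1.2 h1
    rw [h2, h3]
  · intro n hn
    obtain ⟨i', hi', k', hk', e⟩ := closed_iter hw0 hcl hi hk n
    have h1 : ((f i + g k + n * d : ℤ) : ZMod w) = ((f i' + g k' : ℤ) : ZMod w) := by
      push_cast; exact e.symm
    rw [ZMod.intCast_eq_intCast_iff_dvd_sub, hw] at h1
    obtain ⟨r, hr⟩ := h1
    push_cast at hr
    have h2 : f i' + g k' - (f i + g k) = d * (n + c * r) := by linear_combination hr
    refine ⟨(i', k'), ?_, ?_⟩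
    · simp only [mem_filter, mem_product]
      exact ⟨⟨hi', hk'⟩, _, h2⟩
    · simp only
      rw [h2, Int.mul_ediv_cancel_left _ hd0, Int.add_mul_emod_self_left]
      exact Int.emod_eq_of_lt (mem_Ico.1 hn).1 (mem_Ico.1 hn).2

section Ring
variable {G : Type} [AddCommGroup G] [Fintype G] [DecidableEq G]

lemma frob_coeff {p : ℕ} [Fact p.Prime] (hinj : Function.Injective (fun y : G => p • y))
    (x : AddMonoidAlgebra (ZMod p) G) (y : G) : (x ^ p).coeff (p • y) = x.coeff y := by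
  have : CharP (AddMonoidAlgebra (ZMod p) G) p :=
    charP_of_injective_algebraMap (R := ZMod p) (by
      intro a b hab
      simpa [AddMonoidAlgebra.coe_algebraMap] using hab) p
  have hx : x = ∑ g : G, AddMonoidAlgebra.single g (x.coeff g) := by
    ext z
    simp [AddMonoidAlgebra.coeff_sum]
  conv_lhs => rw [hx, sum_pow_char]
  simp only [AddMonoidAlgebra.single_pow, ZMod.pow_card, AddMonoidAlgebra.coeff_sum,
    AddMonoidAlgebra.coeff_single, Finsupp.coe_finsetSum, Finset.sum_apply, Finsupp.single_apply]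
  have : ∀ g : G, (p • g = p • y) ↔ g = y := fun g => ⟨fun h => hinj h, fun h => by rw [h]⟩
  simp [this]

/-- reduction of coefficients modulo `p` -/
noncomputable def red (p : ℕ) : AddMonoidAlgebra ℤ G →ₐ[ℤ] AddMonoidAlgebra (ZMod p) G :=
  AddMonoidAlgebra.lift ℤ (AddMonoidAlgebra (ZMod p) G) G (AddMonoidAlgebra.of (ZMod p) G)

omit [Fintype G] [DecidableEq G] in
lemma red_el (p : ℕ) (s : Finset ι) (f : ι → G) : red p (el ℤ s f) = el (ZMod p) s f := by
  unfold el red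
  rw [map_sum]
  refine sum_congr rfl (fun i _ => ?_)
  simp [AddMonoidAlgebra.lift_single]

omit [Fintype G] [AddCommGroup G] in
lemma coeff_el_id (R : Type) [Semiring R] (s : Finset G) (y : G) :
    (el R s id).coeff y = if y ∈ s then 1 else 0 := by
  unfold el
  rw [AddMonoidAlgebra.coeff_sum]
  simp [Finsupp.single_apply]

omit [Fintype G] [DecidableEq G] in
lemma smul_cancel {c : ℕ} (hc : c ≠ 0) {x y : AddMonoidAlgebra ℤ G} (h : (c : ℤ) • x = (c : ℤ) • y) :
    x = y := by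
  ext z
  have := congrArg (fun u : AddMonoidAlgebra ℤ G => u.coeff z) h
  simp only [AddMonoidAlgebra.coeff_smul_apply, smul_eq_mul] at this
  exact mul_left_cancel₀ (by exact_mod_cast hc) this

omit [Fintype G] [DecidableEq G] [AddCommGroup G] in
lemma el_cl {p : ℕ} [NeZero p] (R : Type) [Semiring R] (s : Finset ι) (f : ι → ℤ) (F : ι → G) :
    el R s F = ∑ i : ZMod p, el R (cl s f p i) F := by
  unfold el cl
  exact (sum_fiberwise s (fun x => (f x : ZMod p)) _).symm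

/-- the algebraic core -/
lemma core {p : ℕ} [Fact p.Prime] (hinj : Function.Injective (fun y : G => p • y))
    (c : ℕ) (hc : c ≠ 0) (a b : ZMod p → AddMonoidAlgebra ℤ G) (Q : ZMod p → ZMod p → Finset G)
    (hQ : ∀ i j, a i * b j = (c : ℤ) • el ℤ (Q i j) id)
    (hab : (∑ i, a i) * (∑ j, b j) = ((p * c : ℕ) : ℤ) • el ℤ (univ : Finset G) id)
    (hF2 : ∀ i j, ((p : ℤ) • a i - ∑ i, a i) * ((p : ℤ) • b j - ∑ j, b j) = 0)
    (hcard : ∀ i i' j, (Q i j).card = (Q i' j).card) (i i' j : ZMod p) {y : G} (hy : y ∈ Q i j) :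
    y ∈ Q i' j := by
  have hp : p.Prime := Fact.out
  set J := el ℤ (univ : Finset G) id with hJ
  set C := ∑ i, el ℤ (Q i j) id with hC
  set R := ∑ j', el ℤ (Q i j') id with hR
  set P := el ℤ (Q i j) id with hP
  have e1 : (∑ i, a i) * b j = (c : ℤ) • C := by
    rw [sum_mul, hC, smul_sum]; exact sum_congr rfl (fun i _ => hQ i j)
  have e2 : a i * (∑ j, b j) = (c : ℤ) • R := by
    rw [mul_sum, hR, smul_sum]; exact sum_congr rfl (fun j _ => hQ i j)
  have e3 : (p : ℤ) • P + J = R + C := by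
    refine smul_cancel (c := p * c) (mul_ne_zero hp.ne_zero hc) ?_
    have := hF2 i j
    rw [sub_mul, mul_sub, mul_sub, smul_mul_smul_comm, smul_mul_assoc, mul_smul_comm, hQ, e1, e2,
      hab] at this
    simp only [zsmul_eq_mul] at this ⊢
    push_cast at this ⊢
    linear_combination this
  have e4 : C * R = (p : ℤ) • (J * P) := by
    refine smul_cancel (c := c * c) (mul_ne_zero hc hc) ?_
    have : ((∑ i, a i) * b j) * (a i * ∑ j, b j) = ((∑ i, a i) * ∑ j, b j) * (a i * b j) := by ring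
    rw [e1, e2, hab, hQ] at this
    simp only [zsmul_eq_mul] at this ⊢
    push_cast at this ⊢
    linear_combination this
  have e5 : J * C = (p : ℤ) • (J * P) := by
    rw [hC, mul_sum, hP, hJ]
    simp only [J_mul_el, hcard _ i j]
    rw [sum_const, card_univ, ZMod.card]
    simp only [natCast_zsmul]
  have hz : ∀ x : AddMonoidAlgebra ℤ G, red p ((p : ℤ) • x) = 0 := by
    intro x
    rw [map_zsmul, ← Int.cast_smul_eq_zsmul (ZMod p)]
    simp
  have e6 : red p C ^ 2 = 0 := by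
    have h3 := congrArg (red p) e3
    have h4 := congrArg (red p) e4
    have h5 := congrArg (red p) e5
    rw [map_add, map_add, hz] at h3
    rw [map_mul, hz] at h4 h5
    linear_combination (-red p C) * h3 - h4 + h5
  have e7 : red p C ^ p = 0 := by
    obtain ⟨k, hk⟩ := Nat.exists_eq_add_of_le hp.two_le
    calc red p C ^ p = red p C ^ (2 + k) := by rw [← hk]
      _ = 0 := by rw [pow_add, e6, zero_mul]
  have e8 := frob_coeff hinj (red p C) y
  rw [e7, hC, map_sum] at e8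
  simp only [red_el, AddMonoidAlgebra.coeff_sum, Finsupp.coe_finsetSum, Finset.sum_apply,
    coeff_el_id, sum_boole] at e8
  have e9 : p ∣ (univ.filter (fun i => y ∈ Q i j)).card := by
    rw [← ZMod.natCast_eq_zero_iff]
    simpa using e8.symm
  have h1 : 0 < (univ.filter (fun i => y ∈ Q i j)).card := card_pos.2 ⟨i, by simp [hy]⟩
  have h2 : univ.filter (fun i => y ∈ Q i j) = univ := by
    apply eq_univ_of_card
    refine le_antisymm (card_le_univ _) ?_
    rw [ZMod.card]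
    exact Nat.le_of_dvd h1 e9
  have h3 : i' ∈ univ.filter (fun i => y ∈ Q i j) := by rw [h2]; exact mem_univ _
  exact (mem_filter.1 h3).2

omit [Fintype G] [DecidableEq G] in
lemma ev_one_el (s : Finset ι) (F : ι → G) : ev (1 : AddChar G ℂ) (el ℤ s F) = s.card := by
  unfold el
  rw [map_sum]
  simp [ev_single]

end Ring

/-- equidistribution modulo `p` -/
def Equi (s : Finset ι) (f : ι → ℤ) (p : ℕ) : Prop := ∀ i : ZMod p, p * (cl s f p i).card = s.card

section Two
variable {p v w1 : ℕ} {s : Finset ι} {t : Finset κ} {f : ι → ℤ} {g : κ → ℤ}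

lemma Fam.equi [NeZero (p ^ v * w1)] (hp : p.Prime) (hc : Nat.Coprime p w1)
    (h : Fam s t (fun i => (f i : ZMod (p ^ v * w1))) (fun k => (g k : ZMod (p ^ v * w1))))
    (hv : v ≠ 0) : Equi s f p ∨ Equi t g p := by
  have : NeZero p := ⟨hp.ne_zero⟩
  by_contra hcon
  unfold Equi at hcon
  push Not at hcon
  obtain ⟨⟨i, hi⟩, ⟨j, hj⟩⟩ := hcon
  have := h.hat_F2 hp hc hv (one_pow w1) i j
  simp only [hat, one_zpow, sum_const, nsmul_eq_mul, mul_one] at this
  rcases mul_eq_zero.1 this with h1 | h1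
  · exact hi (by exact_mod_cast sub_eq_zero.1 h1)
  · exact hj (by exact_mod_cast sub_eq_zero.1 h1)

lemma Fam.class_closed [NeZero (p ^ v * w1)] [NeZero p] (hp : p.Prime)
    (h : Fam s t (fun i => (f i : ZMod (p ^ v * w1))) (fun k => (g k : ZMod (p ^ v * w1))))
    (hv : v ≠ 0) (i j : ZMod p) :
    ∀ a ∈ cl s f p i, ∀ b ∈ cl t g p j, ∃ a' ∈ cl s f p i, ∃ b' ∈ cl t g p j,
      (f a' : ZMod (p ^ v * w1)) + g b' = f a + g b + (p * w1 : ℕ) := by
  intro a ha b hb
  set x := el ℤ (cl s f p i) (fun i => (f i : ZMod (p ^ v * w1))) *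
    el ℤ (cl t g p j) (fun k => (g k : ZMod (p ^ v * w1))) with hx
  set d : ZMod (p ^ v * w1) := ((p * w1 : ℕ) : ZMod (p ^ v * w1)) with hd
  have h1 : x * AddMonoidAlgebra.single d 1 - x = 0 := by
    refine ev_ext _ (fun ψ => ?_)
    rw [map_sub, map_mul, ev_single, hx, map_mul, ev_el, ev_el]
    have h2 : ψ d = ψ 1 ^ (p * w1) := by
      rw [← AddChar.map_nsmul_eq_pow, hd]; simp
    by_cases h3 : ψ 1 ^ (p * w1) = 1
    · rw [h2, h3]; simp
    · rw [h.hat_F1 hp hv (char_pow ψ) h3]; simp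
  have h2 := congrArg (fun u => u.coeff ((f a : ZMod (p ^ v * w1)) + g b + d)) (sub_eq_zero.1 h1)
  simp only [AddMonoidAlgebra.coeff_mul_single_add, mul_one] at h2
  rw [hx, coeff_el_mul, coeff_el_mul, Nat.cast_inj] at h2
  have h3 : 0 < rep (cl s f p i) (cl t g p j) (fun i => (f i : ZMod (p ^ v * w1)))
      (fun k => (g k : ZMod (p ^ v * w1))) ((f a : ZMod (p ^ v * w1)) + g b) :=
    card_pos.2 ⟨(a, b), by simp [ha, hb]⟩
  rw [h2] at h3
  obtain ⟨⟨a', b'⟩, hx'⟩ := card_pos.1 h3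
  simp only [mem_filter, mem_product] at hx'
  exact ⟨a', hx'.1.1, b', hx'.1.2, hx'.2⟩

lemma Fam.exists_rep {G : Type} [AddCommGroup G] [DecidableEq G] {F : ι → G} {H : κ → G}
    (h : Fam s t F H) (z : G) : ∃ a ∈ s, ∃ b ∈ t, F a + H b = z := by
  have h1 := h z
  unfold rep at h1
  obtain ⟨⟨a, b⟩, hx⟩ := card_pos.1 (h1.symm ▸ Nat.one_pos)
  simp only [mem_filter, mem_product] at hx
  exact ⟨a, hx.1.1, b, hx.1.2, hx.2⟩

/-- the class-shift lemma -/
theorem Fam.shift [NeZero (p ^ v * w1)] (hp : p.Prime) (hc : Nat.Coprime p w1)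
    (h : Fam s t (fun i => (f i : ZMod (p ^ v * w1))) (fun k => (g k : ZMod (p ^ v * w1))))
    (hv : v ≠ 0) (he : Equi s f p) {a0 : ι} (ha0 : a0 ∈ s) {b0 : κ} (hb0 : b0 ∈ t) (n : ℤ) :
    ∃ a ∈ s, ∃ b ∈ t, (g b : ZMod p) = g b0 ∧
      (f a : ZMod (p ^ v * w1)) + g b = f a0 + g b0 + n * w1 := by
  have := Fact.mk hp
  have hw0 : p ^ v * w1 ≠ 0 := NeZero.ne _
  have : NeZero w1 := ⟨right_ne_zero_of_mul hw0⟩
  obtain ⟨v, rfl⟩ := Nat.exists_eq_succ_of_ne_zero hv
  have hcop : IsCoprime (p : ℤ) (w1 : ℤ) := Nat.isCoprime_iff_coprime.2 hc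
  have hw : p ^ (v + 1) * w1 = p ^ v * (p * w1) := by ring
  set Q : ZMod p → ZMod p → Finset (ZMod w1) := fun i j => univ.filter (fun y =>
    ∃ x ∈ cl s f p i, ∃ k ∈ cl t g p j, (f x : ZMod w1) + g k = y) with hQdef
  set a : ZMod p → AddMonoidAlgebra ℤ (ZMod w1) :=
    fun i => el ℤ (cl s f p i) (fun x => (f x : ZMod w1)) with ha
  set b : ZMod p → AddMonoidAlgebra ℤ (ZMod w1) :=
    fun j => el ℤ (cl t g p j) (fun x => (g x : ZMod w1)) with hb
  have hdv : ∀ {d : ℕ} (x y x' y' : ℤ), ((x : ZMod d) + y = x' + y') ↔ (d : ℤ) ∣ x + y - (x' + y') := by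
    intro d x y x' y'
    rw [← ZMod.intCast_eq_intCast_iff_dvd_sub, eq_comm]
    push_cast
    rfl
  have hQ : ∀ i j, a i * b j = ((p ^ v : ℕ) : ℤ) • el ℤ (Q i j) id := by
    intro i j
    ext y
    rw [ha, hb, coeff_el_mul, AddMonoidAlgebra.coeff_smul_apply, coeff_el_id, smul_eq_mul]
    split_ifs with hy
    · simp only [hQdef, mem_filter, mem_univ, true_and] at hy
      obtain ⟨x, hx, k, hk, rfl⟩ := hy
      rw [mul_one, Nat.cast_inj, ← count_fibre hw hw0 (fun i hi i' hi' k hk k' hk' e =>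
        h.unique (mem_filter.1 hi).1 (mem_filter.1 hi').1 (mem_filter.1 hk).1 (mem_filter.1 hk').1 e)
        (h.class_closed hp hv i j) hx hk]
      unfold rep
      congr 1
      refine filter_congr (fun z hz => ?_)
      rw [hdv]
      push_cast
      refine ⟨fun h1 => hcop.mul_dvd ?_ h1, fun h1 => (Dvd.intro_left _ rfl).trans h1⟩
      simp only [cl, mem_product, mem_filter] at hz hx hk
      rw [← hdv, hz.1.2, hz.2.2, hx.2, hk.2]
    · rw [mul_zero, Nat.cast_eq_zero]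
      unfold rep
      rw [card_eq_zero, filter_eq_empty_iff]
      intro z hz e
      apply hy
      simp only [hQdef, mem_filter, mem_univ, true_and]
      exact ⟨z.1, (mem_product.1 hz).1, z.2, (mem_product.1 hz).2, e⟩
  have hsa : ∑ i, a i = el ℤ s (fun x => (f x : ZMod w1)) := (el_cl ℤ s f _).symm
  have hsb : ∑ j, b j = el ℤ t (fun x => (g x : ZMod w1)) := (el_cl ℤ t g _).symm
  have hab : (∑ i, a i) * (∑ j, b j) =
      ((p * p ^ v : ℕ) : ℤ) • el ℤ (univ : Finset (ZMod w1)) id := by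
    ext y
    rw [hsa, hsb, coeff_el_mul, AddMonoidAlgebra.coeff_smul_apply, coeff_J, smul_eq_mul, mul_one,
      Nat.cast_inj]
    obtain ⟨y, rfl⟩ := ZMod.intCast_surjective y
    obtain ⟨x, hx, k, hk, e⟩ := h.exists_rep (y : ZMod (p ^ (v + 1) * w1))
    rw [← pow_succ', ← count_fibre (c := p ^ (v + 1)) (d := w1) rfl hw0
      (fun i hi i' hi' k hk k' hk' e => h.unique hi hi' hk hk' e)
      (fun i _ k _ => h.exists_rep _) hx hk]
    have e' : (f x : ZMod w1) + g k = y := by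
      have := congrArg (ZMod.castHom (Dvd.intro_left (p ^ (v + 1)) rfl) (ZMod w1)) e
      simpa only [map_add, map_intCast] using this
    unfold rep
    congr 1
    refine filter_congr (fun z _ => ?_)
    rw [← e', hdv]
  have hF2 : ∀ i j, ((p : ℤ) • a i - ∑ i, a i) * ((p : ℤ) • b j - ∑ j, b j) = 0 := by
    intro i j
    refine ev_ext _ (fun ψ => ?_)
    rw [hsa, hsb, ha, hb, map_mul, map_sub, map_sub, map_zsmul, map_zsmul, ev_el, ev_el, ev_el,
      ev_el, zsmul_eq_mul, zsmul_eq_mul, Int.cast_natCast]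
    exact h.hat_F2 hp hc hv (char_pow ψ) i j
  have hcard : ∀ i i' j, (Q i j).card = (Q i' j).card := by
    have key : ∀ i j, (cl s f p i).card * (cl t g p j).card = p ^ v * (Q i j).card := by
      intro i j
      have := congrArg (ev (1 : AddChar (ZMod w1) ℂ)) (hQ i j)
      rw [ha, hb, map_mul, map_zsmul, ev_one_el, ev_one_el, ev_one_el, zsmul_eq_mul] at this
      exact_mod_cast this
    intro i i' j
    refine Nat.eq_of_mul_eq_mul_left (pow_pos hp.pos v) ?_
    rw [← key, ← key, Nat.eq_of_mul_eq_mul_left hp.pos ((he i).trans (he i').symm)]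
  have hinj : Function.Injective (fun y : ZMod w1 => p • y) := by
    intro y y' e
    simp only [nsmul_eq_mul] at e
    exact ((ZMod.isUnit_iff_coprime p w1).2 hc).mul_left_cancel e
  have hy : ((f a0 : ZMod w1) + g b0) ∈ Q (f a0) (g b0) := by
    simp only [hQdef, mem_filter, mem_univ, true_and, cl]
    exact ⟨a0, ⟨ha0, rfl⟩, b0, ⟨hb0, rfl⟩, rfl⟩
  have h1 := core hinj (p ^ v) (pow_pos hp.pos v).ne' a b Q hQ hab hF2 hcard _
    ((f a0 + n * w1 : ℤ) : ZMod p) _ hy
  simp only [hQdef, mem_filter, mem_univ, true_and] at h1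
  obtain ⟨x, hx, k, hk, e⟩ := h1
  have h2 : (p : ℤ) * w1 ∣ f a0 + n * w1 + g b0 - (f x + g k) := by
    refine hcop.mul_dvd ?_ ?_
    · rw [← hdv, (mem_filter.1 hx).2, (mem_filter.1 hk).2]
    · rw [← hdv, e]; simp
  obtain ⟨r, hr⟩ := h2
  obtain ⟨x', hx', k', hk', e'⟩ := closed_iter hw0 (h.class_closed hp hv _ _) hx hk r
  refine ⟨x', (mem_filter.1 hx').1, k', (mem_filter.1 hk').1, (mem_filter.1 hk').2, ?_⟩
  rw [e']
  have h3 := congrArg (fun z : ℤ => (z : ZMod (p ^ (v + 1) * w1))) hr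
  push_cast at h3 ⊢
  linear_combination -h3

theorem Fam.shift_fam [NeZero (p ^ v * w1)] (hp : p.Prime) (hc : Nat.Coprime p w1)
    (h : Fam s t (fun i => (f i : ZMod (p ^ v * w1))) (fun k => (g k : ZMod (p ^ v * w1))))
    (hv : v ≠ 0) (he : Equi s f p) (τ : ZMod p → ℤ) :
    Fam s t (fun i => (f i : ZMod (p ^ v * w1)))
      (fun k => ((g k + τ (g k) * w1 : ℤ) : ZMod (p ^ v * w1))) := by
  have hpos : ∀ z, 1 ≤ rep s t (fun i => (f i : ZMod (p ^ v * w1)))
      (fun k => ((g k + τ (g k) * w1 : ℤ) : ZMod (p ^ v * w1))) z := by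
    intro z
    obtain ⟨a0, ha0, b0, hb0, e⟩ := h.exists_rep z
    obtain ⟨a, ha, b, hb, e1, e2⟩ := h.shift hp hc hv he ha0 hb0 (-τ (g b0))
    refine card_pos.2 ⟨(a, b), ?_⟩
    simp only [mem_filter, mem_product]
    refine ⟨⟨ha, hb⟩, ?_⟩
    rw [e1, ← e]
    push_cast at e2 ⊢
    linear_combination e2
  have hsum : ∑ z : ZMod (p ^ v * w1), 1 = ∑ z, rep s t (fun i => (f i : ZMod (p ^ v * w1)))
      (fun k => ((g k + τ (g k) * w1 : ℤ) : ZMod (p ^ v * w1))) z := by
    rw [sum_rep, h.card]; simp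
  intro z
  exact ((Finset.sum_eq_sum_iff_of_le (fun z _ => hpos z)).1 hsum z (mem_univ _)).symm

end Two

end Pool.Agent.Work.MP_3587fb_co
end

-- merged part: Pool.Agent.Work.MP_3587fb_co.Full
section
/-! The full statement, by induction on the period with the class-shift lemma. -/

namespace Pool.Agent.Work.MP_3587fb_co

open Finset

variable {ι κ : Type}

lemma split_prime {w p : ℕ} (hw : w ≠ 0) (hp : p.Prime) (hd : p ∣ w) :
    ∃ v w1, v ≠ 0 ∧ Nat.Coprime p w1 ∧ w = p ^ v * w1 := by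
  obtain ⟨v, w1, h1, h2⟩ := Nat.exists_eq_pow_mul_and_not_dvd hw p hp.ne_one
  refine ⟨v, w1, ?_, (Nat.Prime.coprime_iff_not_dvd hp).2 h1, h2⟩
  rintro rfl
  rw [pow_zero, one_mul] at h2
  exact h1 (h2 ▸ hd)

lemma exists_shift {p w1 : ℕ} (hc : Nat.Coprime p w1) :
    ∃ τ : ZMod p → ℤ, ∀ y : ℤ, (p : ℤ) ∣ y + τ y * w1 := by
  obtain ⟨u, hu⟩ := (ZMod.isUnit_iff_coprime w1 p).2 hc.symm
  refine ⟨fun c => (-c * ↑u⁻¹ : ZMod p).cast, fun y => ?_⟩
  rw [← ZMod.intCast_zmod_eq_zero_iff_dvd]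
  push_cast
  rw [← hu, mul_assoc, Units.inv_mul]
  ring

lemma Fam.into {w p : ℕ} [NeZero w] {t : Finset κ} {g : κ → ℤ}
    (hp : p.Prime) (hd : p ∣ w) :
    ∃ g' : κ → ℤ, (∀ k, (p : ℤ) ∣ g' k) ∧
      (∀ k, ∀ q : ℕ, q.Prime → q ∣ w → q ≠ p → (q : ℤ) ∣ g' k - g k) ∧
      ∀ {ι' : Type} {s' : Finset ι'} {f' : ι' → ℤ},
        Fam s' t (fun i => (f' i : ZMod w)) (fun k => (g k : ZMod w)) → Equi s' f' p →
        Fam s' t (fun i => (f' i : ZMod w)) (fun k => (g' k : ZMod w)) := by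
  obtain ⟨v, w1, hv, hc, rfl⟩ := split_prime (NeZero.ne w) hp hd
  obtain ⟨τ, hτ⟩ := exists_shift hc
  refine ⟨fun k => g k + τ (g k) * w1, fun k => hτ _, fun k q hq hqw hqp => ?_,
    fun h he => h.shift_fam hp hc hv he τ⟩
  have h1 : q ∣ w1 := by
    refine Nat.Coprime.dvd_of_dvd_mul_left (Nat.Coprime.pow_right _ ?_) hqw
    exact (Nat.coprime_primes hq hp).2 hqp
  rw [add_sub_cancel_left]
  exact Dvd.dvd.mul_left (Int.natCast_dvd_natCast.2 h1) _

lemma Fam.unit_diff {w : ℕ} [NeZero w] {s : Finset ι} {t : Finset κ} {f : ι → ℤ} {g : κ → ℤ}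
    (h : Fam s t (fun i => (f i : ZMod w)) (fun k => (g k : ZMod w)))
    (he : ∀ p, p.Prime → p ∣ w → Equi s f p) :
    ∃ a ∈ s, ∃ a' ∈ s, IsUnit ((f a : ZMod w) - f a') := by
  have key : ∀ Q : Finset ℕ, (∀ p ∈ Q, p.Prime ∧ p ∣ w) → ∃ g' : κ → ℤ,
      (∀ k, ∀ p ∈ Q, (p : ℤ) ∣ g' k) ∧
      Fam s t (fun i => (f i : ZMod w)) (fun k => (g' k : ZMod w)) := by
    intro Q
    induction Q using Finset.induction_on with
    | empty => exact fun _ => ⟨g, by simp, h⟩
    | insert p Q hpQ ih =>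
      intro hQ
      obtain ⟨g1, h1, h2⟩ := ih (fun q hq => hQ q (mem_insert_of_mem hq))
      obtain ⟨hp, hd⟩ := hQ p (mem_insert_self _ _)
      obtain ⟨g2, h3, h4, h5⟩ := Fam.into (t := t) (g := g1) hp hd
      refine ⟨g2, fun k q hq => ?_, h5 h2 (he p hp hd)⟩
      rcases mem_insert.1 hq with rfl | hq'
      · exact h3 k
      · have := dvd_add (h4 k q (hQ q hq).1 (hQ q hq).2 (fun e => hpQ (e ▸ hq'))) (h1 k q hq')
        simpa using this
  obtain ⟨g', h1, h2⟩ := key w.primeFactors (fun p hp =>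
    ⟨Nat.prime_of_mem_primeFactors hp, Nat.dvd_of_mem_primeFactors hp⟩)
  obtain ⟨a, ha, b, -, e⟩ := h2.exists_rep 1
  obtain ⟨a', ha', b', -, e'⟩ := h2.exists_rep 0
  refine ⟨a, ha, a', ha', ?_⟩
  rw [← Int.cast_sub, ZMod.coe_int_isUnit_iff_isCoprime, Int.isCoprime_iff_gcd_eq_one]
  refine Nat.eq_one_iff_not_exists_prime_dvd.2 (fun p hp hd => ?_)
  have h3 : (p : ℤ) ∣ w := (Int.natCast_dvd_natCast.2 hd).trans (Int.gcd_dvd_left _ _)
  have h4 : (p : ℤ) ∣ f a - f a' := (Int.natCast_dvd_natCast.2 hd).trans (Int.gcd_dvd_right _ _)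
  have h5 : p ∈ w.primeFactors :=
    Nat.mem_primeFactors.2 ⟨hp, Int.natCast_dvd_natCast.1 h3, NeZero.ne w⟩
  have h6 : (w : ℤ) ∣ 1 - (f a - f a' + (g' b - g' b')) := by
    rw [← ZMod.intCast_eq_intCast_iff_dvd_sub]
    push_cast
    linear_combination e - e'
  have h7 := dvd_add (h3.trans h6) (dvd_add h4 (dvd_sub (h1 b p h5) (h1 b' p h5)))
  rw [sub_add_cancel] at h7
  exact hp.one_lt.ne' (Nat.dvd_one.1 (Int.natCast_dvd_natCast.1 h7))

lemma Tl.of_fam {w : ℕ} [NeZero w] {A : Finset ℤ} {t : Finset κ} {g : κ → ℤ}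
    (hf : Fam A t (fun a : ℤ => (a : ZMod w)) (fun k => (g k : ZMod w))) :
    Tl w A {y | ∃ k ∈ t, (w : ℤ) ∣ y - g k} := by
  refine ⟨Nat.pos_of_ne_zero (NeZero.ne w), ?_, ?_⟩
  · intro y
    simp only [Set.mem_ofPred_eq]
    refine exists_congr (fun b => and_congr_right (fun _ => ?_))
    rw [show y + w - g b = (y - g b) + w by ring]
    exact dvd_add_self_right
  · intro z
    obtain ⟨a, ha, b, hb, e⟩ := hf.exists_rep (z : ZMod w)
    refine ⟨a, ⟨ha, b, hb, ?_⟩, ?_⟩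
    · rw [← ZMod.intCast_eq_intCast_iff_dvd_sub]
      push_cast; rw [← e]; ring
    · rintro a' ⟨ha', b', hb', e'⟩
      rw [← ZMod.intCast_eq_intCast_iff_dvd_sub] at e'
      push_cast at e'
      refine (hf.unique ha' ha hb' hb ?_).1
      rw [e, e']; ring

/-- the statement proved by induction on the period -/
def Stmt2 (w : ℕ) : Prop := ∀ (A A' : Finset ℤ) (B : Set ℤ), Tl w A B → Tl w A' B →
  A.card < 2 * (ini A.card A).card → Comp A.card A'

lemma coset_step2 {w : ℕ} (p w' : ℕ) (hp : p ≠ 0) (hw : w = p * w') (ih : Stmt2 w')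
    {A A' : Finset ℤ} {B : Set ℤ} (h : Tl w A B) (h' : Tl w A' B)
    (hden : A.card < 2 * (ini A.card A).card)
    (c : ℤ) (hB : ∀ b ∈ B, (p : ℤ) ∣ b - c) : Comp A.card A' := by
  have hp' : (0 : ℤ) < p := by exact_mod_cast Nat.pos_of_ne_zero hp
  set B' : Set ℤ := {y | c + p * y ∈ B}
  have t0 := h.redB p w' hp hw c hB le_rfl hp'
  set n' := (cls A p 0).card with hn'
  have hall : ∀ i ∈ Ico (0 : ℤ) p, (cls A p i).card = n' := fun i hi =>
    t0.card_eq (h.redB p w' hp hw c hB (mem_Ico.1 hi).1 (mem_Ico.1 hi).2)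
  have hn : A.card = p * n' := by
    rw [sum_cls A p hp, sum_congr rfl hall]; simp
  obtain ⟨i, hi, hd⟩ : ∃ i ∈ Ico (0 : ℤ) p, n' < 2 * (ini n' (cls A p i)).card := by
    by_contra hc
    push Not at hc
    have h1 := sum_le_sum hc
    have h2 : (ini A.card A).card ≤ ∑ i ∈ Ico (0 : ℤ) p, (ini n' (cls A p i)).card := by
      rw [sum_cls _ p hp, hn]
      exact sum_le_sum (fun i hi => card_le_card
        (cls_ini A p n' hp (mem_Ico.1 hi).1 (mem_Ico.1 hi).2))
    rw [← mul_sum] at h1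
    simp only [sum_const, Int.card_Ico, sub_zero, Int.toNat_natCast, smul_eq_mul] at h1
    omega
  have ti := h.redB p w' hp hw c hB (mem_Ico.1 hi).1 (mem_Ico.1 hi).2
  intro a ha a' ha' hdv
  have j0 := Int.emod_nonneg a hp'.ne'
  have j1 := Int.emod_lt_of_pos a hp'
  have tj := h'.redB p w' hp hw c hB j0 j1
  have hc := ih _ _ _ ti tj (by rw [hall i hi]; exact hd)
  rw [hall i hi] at hc
  rw [hn] at hdv
  push_cast at hdv
  obtain ⟨t, ht⟩ := hdv
  have e1 : a = a % p + p * (a / p) := (Int.emod_add_mul_ediv a p).symm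
  have e2 : a' = a % p + p * (a / p - n' * t) := by linear_combination e1 - ht
  have := hc (a / p) ((mem_cls hp j0 j1).2 (e1 ▸ ha)) (a / p - n' * t)
    ((mem_cls hp j0 j1).2 (e2 ▸ ha')) ⟨t, by ring⟩
  rw [e2, ← this, ← e1]

theorem stmt2 (w : ℕ) : Stmt2 w := by
  induction w using Nat.strong_induction_on with
  | _ w ih =>
  intro A A' B h h' hden
  have : NeZero w := ⟨h.pos.ne'⟩
  have hnm := h.card
  have red : ∀ p, p.Prime → p ∣ w → ∃ w', w = p * w' ∧ Stmt2 w' := by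
    rintro p hp ⟨w', hw⟩
    refine ⟨w', hw, ih w' ?_⟩
    have h0 : 0 < w' := Nat.pos_of_mul_pos_left (hw ▸ h.pos)
    have := hp.two_le
    nlinarith
  by_cases hall : ∀ p, p.Prime → p ∣ w → Equi (bar w B) (fun b => b) p
  · obtain ⟨b, hb, b', hb', hu⟩ := h.fam.symm.unit_diff hall
    have hb1 := (mem_bar.1 hb).2
    have hb2 := (mem_bar.1 hb').2
    have av : ∀ {v : ZMod w}, IsUnit v → ∀ a ∈ A, ∀ a' ∈ A, (a : ZMod w) - a' = v → a = a' :=
      fun hv a ha a' ha' e => h.avoid hb1 hb2 (d := 1) hu (by simp) hv ha ha' (by simpa using e)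
    have d1 : ∀ a ∈ A, a + (1 : ℕ) ∉ A := fun a ha ha' => by
      have := av isUnit_one _ ha' _ ha (by push_cast; ring)
      omega
    by_cases h2 : 2 ∣ A.card
    · have := half_even A.card 1 A one_pos h2 d1
      omega
    by_cases hw2 : 2 ∣ w
    · obtain ⟨w', hw, hs⟩ := red 2 Nat.prime_two hw2
      exact hs _ _ _ (h.redA 2 w' Nat.prime_two hw h2)
        (h'.redA 2 w' Nat.prime_two hw (by rwa [h.card_eq h'])) hden
    by_cases h1 : A.card = 1
    · intro a ha a' ha' _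
      exact card_le_one.1 (by rw [h.card_eq h', h1]) a ha a' ha'
    · have h2u : IsUnit ((2 : ℕ) : ZMod w) := by
        rw [ZMod.isUnit_iff_coprime]
        exact (Nat.Prime.coprime_iff_not_dvd Nat.prime_two).2 hw2
      have := half_odd A.card 1 A (by have := h.cpos; omega) d1 (fun a ha ha' => by
        have := av h2u _ ha' _ ha (by push_cast; ring)
        omega)
      omega
  · push Not at hall
    obtain ⟨p, hp, hd, hne⟩ := hall
    obtain ⟨w', hw, hs⟩ := red p hp hd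
    have eq : ∀ {A1 : Finset ℤ}, Tl w A1 B → Equi A1 (fun a => a) p := by
      intro A1 h1
      have hf := h1.fam
      obtain ⟨v, w1, hv, hc, rfl⟩ := split_prime (NeZero.ne w) hp hd
      exact (hf.equi hp hc hv).resolve_right hne
    obtain ⟨g', h1, -, h3⟩ := Fam.into (t := bar w B)
      (g := fun b => b) hp hd
    refine coset_step2 p w' hp.ne_zero hw hs (Tl.of_fam (h3 h.fam (eq h)))
      (Tl.of_fam (h3 h'.fam (eq h'))) hden 0 ?_
    rintro y ⟨k, -, e⟩
    have := dvd_add ((Int.natCast_dvd_natCast.2 hd).trans e) (h1 k)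
    simpa using this

end Pool.Agent.Work.MP_3587fb_co
end
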